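import Mathlib

/-!
# Counting pairs of integers in boxes and residue classes without common prime factors
-/

set_option autoImplicit false

namespace Pool.Agent.X4.MK

open Finset Filter

/-- few `j` -/
theorem ap_le (J ℓ : ℕ) (hℓ : ℓ.Prime) (N0 : ℕ) (h : ¬ ℓ ∣ N0) (c : ℤ) :
    ((range J).filter fun j : ℕ => (ℓ : ℤ) ∣ c + N0 * j).card ≤ J / ℓ + 1 := by
  have hsub : ((range J).filter fun j : ℕ => (ℓ : ℤ) ∣ c + N0 * j).image (fun j => j / ℓ) ⊆
      range (J / ℓ + 1) := by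
    intro k hk
    rw [mem_image] at hk
    obtain ⟨j, hj, rfl⟩ := hk
    rw [mem_filter, mem_range] at hj
    rw [mem_range]
    have := Nat.div_le_div_right (c := ℓ) hj.1.le
    omega
  have hinj : Set.InjOn (fun j => j / ℓ) (((range J).filter fun j : ℕ =>
      (ℓ : ℤ) ∣ c + N0 * j : Finset ℕ) : Set ℕ) := by
    intro j hj k hk hjk
    simp only [coe_filter, mem_range, Set.mem_ofPred_eq] at hj hk hjk
    have h1 : (ℓ : ℤ) ∣ N0 * ((j : ℤ) - k) := by
      have := hj.2.sub hk.2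
      have e : c + N0 * (j : ℤ) - (c + N0 * k) = N0 * ((j : ℤ) - k) := by ring
      rwa [e] at this
    have hp : Prime (ℓ : ℤ) := Nat.prime_iff_prime_int.1 hℓ
    rcases hp.dvd_or_dvd h1 with h2 | h2
    · exact absurd (Int.natCast_dvd_natCast.1 h2) h
    · have h3 : (j : ℤ) ≡ k [ZMOD ℓ] := (Int.modEq_iff_dvd.2 h2).symm
      have h4 : j % ℓ = k % ℓ := by
        have := Int.natCast_modEq_iff.1 h3
        exact this
      rw [← Nat.div_add_mod j ℓ, ← Nat.div_add_mod k ℓ, hjk, h4]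
  calc _ = (((range J).filter fun j : ℕ => (ℓ : ℤ) ∣ c + N0 * j).image (fun j => j / ℓ)).card :=
        (card_image_of_injOn hinj).symm
    _ ≤ _ := (card_le_card hsub).trans (by rw [card_range])

/-- a progression in an interval -/
theorem ap_start (x R : ℝ) (n : ℕ) (hn : 0 < n) (hR : (n : ℝ) ≤ R) (t : ℤ) :
    ∃ k0 : ℤ, ∀ j : ℕ, j < ⌊R / n⌋₊ + 1 → |((t + n * (k0 + j) : ℤ) : ℝ) - x| ≤ R := by
  refine ⟨⌈(x - R - t) / n⌉, fun j hj => ?_⟩
  have hn0 : (0 : ℝ) < n := by exact_mod_cast hn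
  have h1 := Int.le_ceil ((x - R - t) / (n : ℝ))
  have h2 := Int.ceil_lt_add_one ((x - R - t) / (n : ℝ))
  set k0 := ⌈(x - R - t) / (n : ℝ)⌉ with hk0
  have h3 : (j : ℝ) ≤ R / n := by
    have h4 : j ≤ ⌊R / n⌋₊ := by omega
    have hR0 : 0 ≤ R / n := div_nonneg (hn0.le.trans hR) hn0.le
    exact (Nat.le_floor_iff hR0).1 h4
  have h5 : (x - R - t) ≤ k0 * n := (div_le_iff₀ hn0).1 h1
  have h6 : (k0 : ℝ) * n < x - R - t + n := by
    have := mul_lt_mul_of_pos_right h2 hn0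
    rw [add_mul, div_mul_cancel₀ _ hn0.ne'] at this
    linarith
  have h7 : (j : ℝ) * n ≤ R := (le_div_iff₀ hn0).1 h3
  have h8 : (0 : ℝ) ≤ (j : ℝ) * n := by positivity
  push_cast
  rw [abs_le]
  constructor
  · nlinarith
  · nlinarith

/-- the product of the primes up to `z` not dividing `N0` -/
def PP (N0 z : ℕ) : ℕ := ∏ p ∈ (range (z + 1)).filter (fun p => p.Prime ∧ ¬ p ∣ N0), p

theorem PP_le (N0 z : ℕ) : PP N0 z ≤ 4 ^ z := by
  refine le_trans ?_ (primorial_le_four_pow z)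
  unfold PP primorial
  apply Nat.le_of_dvd (Finset.prod_pos fun p hp => (mem_filter.1 hp).2.pos)
  apply Finset.prod_dvd_prod_of_subset
  intro p hp
  rw [mem_filter] at hp ⊢
  exact ⟨hp.1, hp.2.1⟩

theorem PP_pos (N0 z : ℕ) : 0 < PP N0 z := Finset.prod_pos fun p hp => (mem_filter.1 hp).2.1.pos

theorem PP_coprime (N0 z : ℕ) : Nat.Coprime N0 (PP N0 z) := by
  unfold PP
  refine Nat.Coprime.prod_right fun p hp => ?_
  rw [mem_filter] at hp
  exact ((Nat.Prime.coprime_iff_not_dvd hp.2.1).2 hp.2.2).symm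

theorem PP_dvd {N0 z ℓ : ℕ} (hℓ : ℓ.Prime) (h : ¬ ℓ ∣ N0) (hz : ℓ ≤ z) : ℓ ∣ PP N0 z :=
  Finset.dvd_prod_of_mem _ (mem_filter.2 ⟨mem_range.2 (by omega), hℓ, h⟩)

/-- few large prime factors -/
theorem pow_card_le {z : ℕ} (w : ℕ) (hw : w ≠ 0) (S : Finset ℕ) (hS : S ⊆ w.primeFactors)
    (hz : ∀ ℓ ∈ S, z < ℓ) : z ^ S.card ≤ w := by
  have h1 : ∏ ℓ ∈ S, ℓ ≤ w := by
    refine (Nat.le_of_dvd (Nat.pos_of_ne_zero hw) ?_)
    refine dvd_trans (Finset.prod_dvd_prod_of_subset _ _ _ hS) (Nat.prod_primeFactors_dvd w)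
  refine le_trans ?_ h1
  rw [← Finset.prod_const]
  exact Finset.prod_le_prod' fun ℓ hℓ => (hz ℓ hℓ).le

theorem cnt (N0 : ℕ) (hN : 0 < N0) (A η δ : ℝ) (hA : 0 < A) (hη : 0 < η) (hδ : 0 < δ) :
    ∃ X0 : ℝ, ∀ X : ℝ, X0 ≤ X → ∀ us ws U W : ℝ, X ^ η ≤ U → X ^ η ≤ W → |ws| + W ≤ X ^ A →
      ∀ u0 w0 : ℤ, ∃ E : Finset (ℤ × ℤ),
        (∀ e ∈ E, |(e.1 : ℝ) - us| ≤ U ∧ |(e.2 : ℝ) - ws| ≤ W ∧ (N0 : ℤ) ∣ e.1 - u0 ∧
          (N0 : ℤ) ∣ e.2 - w0 ∧ ∀ ℓ : ℕ, ℓ.Prime → ¬ ℓ ∣ N0 → ¬ ((ℓ : ℤ) ∣ e.1 ∧ (ℓ : ℤ) ∣ e.2)) ∧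
        U * W * X ^ (-δ) ≤ (E.card : ℝ) := by
  -- constants
  set δ' : ℝ := min δ η / 2 with hδ'
  have hδ'0 : 0 < δ' := by
    have := lt_min hδ hη
    positivity
  have hδ1 : 2 * δ' ≤ δ := by
    have := min_le_left δ η
    rw [hδ']; linarith
  have hδ2 : 2 * δ' ≤ η := by
    have := min_le_right δ η
    rw [hδ']; linarith
  set κ : ℝ := δ' / Real.log 4 with hκ
  have hlog4 : 0 < Real.log 4 := Real.log_pos (by norm_num)
  have hκ0 : 0 < κ := by positivity
  have hN0 : (0 : ℝ) < N0 := by exact_mod_cast hN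
  -- asymptotic facts
  have f1 : ∀ᶠ X : ℝ in atTop, (N0 : ℝ) * X ^ δ' ≤ X ^ η := by
    have h := tendsto_rpow_atTop (show 0 < η - δ' by linarith)
    filter_upwards [h.eventually_ge_atTop (N0 : ℝ), eventually_gt_atTop 0] with X h1 h2
    calc (N0 : ℝ) * X ^ δ' ≤ X ^ (η - δ') * X ^ δ' :=
          mul_le_mul_of_nonneg_right h1 (by positivity)
      _ = X ^ η := by rw [← Real.rpow_add h2]; ring_nf
  have f2 : ∀ᶠ X : ℝ in atTop, 2 * (N0 : ℝ) ^ 2 ≤ X ^ δ' :=
    (tendsto_rpow_atTop hδ'0).eventually_ge_atTop _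
  have f3 : ∀ᶠ X : ℝ in atTop, 8 * A * (1 / κ) ≤ Real.log (κ * Real.log X - 1) := by
    have h : Tendsto (fun X : ℝ => Real.log (κ * Real.log X - 1)) atTop atTop := by
      refine Real.tendsto_log_atTop.comp ?_
      exact tendsto_atTop_add_const_right _ _
        (Tendsto.const_mul_atTop hκ0 Real.tendsto_log_atTop)
    exact h.eventually_ge_atTop _
  have f4 : ∀ᶠ X : ℝ in atTop, 4 ≤ κ * Real.log X := by
    exact (Tendsto.const_mul_atTop hκ0 Real.tendsto_log_atTop).eventually_ge_atTop _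
  have f5 : ∀ᶠ X : ℝ in atTop, 4 * (N0 : ℝ) * (A * Real.log X) ≤ X ^ η := by
    have h := isLittleO_log_rpow_atTop hη
    have h2 := h.bound (show 0 < 1 / (4 * N0 * A) by positivity)
    filter_upwards [h2, eventually_ge_atTop 1] with X h3 h4
    have h5 : 0 ≤ Real.log X := Real.log_nonneg h4
    have h6 : (0 : ℝ) ≤ X ^ η := by positivity
    rw [Real.norm_of_nonneg h5, Real.norm_of_nonneg h6] at h3
    have h7 : 4 * (N0 : ℝ) * (A * Real.log X) = (4 * N0 * A) * Real.log X := by ring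
    rw [h7]
    calc (4 * (N0 : ℝ) * A) * Real.log X ≤ (4 * N0 * A) * (1 / (4 * N0 * A) * X ^ η) :=
          mul_le_mul_of_nonneg_left h3 (by positivity)
      _ = X ^ η := by field_simp
  obtain ⟨p0, hp0N, hp0⟩ := Nat.exists_infinite_primes (N0 + 1)
  have hp0d : ¬ p0 ∣ N0 := fun h => by
    have := Nat.le_of_dvd hN h
    omega
  have f6 : ∀ᶠ X : ℝ in atTop, (p0 : ℝ) + 1 ≤ κ * Real.log X := by
    exact (Tendsto.const_mul_atTop hκ0 Real.tendsto_log_atTop).eventually_ge_atTop _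
  obtain ⟨X0, hX0⟩ := eventually_atTop.1 (f1.and (f2.and (f3.and (f4.and (f5.and
    ((eventually_gt_atTop (1 : ℝ)).and f6))))))
  refine ⟨X0, ?_⟩
  intro X hX us ws U W hU hW hws u0 w0
  obtain ⟨g1, g2, g3, g4, g5, g6, g7⟩ := hX0 X hX
  have hXpos : 0 < X := by linarith
  have hlogX : 0 < Real.log X := Real.log_pos g6
  set z : ℕ := ⌊κ * Real.log X⌋₊ with hz
  have hz1 : (z : ℝ) ≤ κ * Real.log X := Nat.floor_le (by positivity)
  have hz2 : κ * Real.log X - 1 < z := by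
    have := Nat.lt_floor_add_one (κ * Real.log X)
    rw [← hz] at this
    linarith
  have hz3 : (3 : ℝ) < z := by linarith
  have hz4 : 3 < z := by exact_mod_cast hz3
  set P := PP N0 z with hP
  have hP0 : 0 < P := PP_pos _ _
  have hPX : (P : ℝ) ≤ X ^ δ' := by
    have h1 : (P : ℝ) ≤ (4 : ℝ) ^ z := by exact_mod_cast PP_le N0 z
    refine h1.trans ?_
    rw [← Real.rpow_natCast, Real.rpow_def_of_pos (by norm_num), Real.rpow_def_of_pos hXpos]
    apply Real.exp_le_exp.2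
    have h2 : Real.log 4 * z ≤ Real.log 4 * (κ * Real.log X) :=
      mul_le_mul_of_nonneg_left hz1 hlog4.le
    have h3 : Real.log 4 * (κ * Real.log X) = Real.log X * δ' := by
      rw [hκ]; field_simp
    linarith
  have hP0' : (0 : ℝ) < P := by exact_mod_cast hP0
  -- the residue class of `w`
  obtain ⟨w1, hw1, hw1'⟩ : ∃ w1 : ℤ, (N0 : ℤ) ∣ w1 - w0 ∧ (P : ℤ) ∣ w1 - 1 := by
    have hc : IsCoprime (N0 : ℤ) (P : ℤ) := Nat.isCoprime_iff_coprime.2 (PP_coprime N0 z)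
    obtain ⟨r, s, hrs⟩ := hc
    refine ⟨w0 * (s * P) + r * N0, ⟨r * (1 - w0), ?_⟩, ⟨s * (w0 - 1), ?_⟩⟩
    · linear_combination w0 * hrs
    · linear_combination hrs
  have hNPW : ((N0 * P : ℕ) : ℝ) ≤ W := by
    push_cast
    calc (N0 : ℝ) * P ≤ N0 * X ^ δ' := mul_le_mul_of_nonneg_left hPX hN0.le
      _ ≤ X ^ η := g1
      _ ≤ W := hW
  have hXδ1 : 1 ≤ X ^ δ' := Real.one_le_rpow g6.le hδ'0.le
  have hNU : (N0 : ℝ) ≤ U := by
    calc (N0 : ℝ) ≤ N0 * X ^ δ' := le_mul_of_one_le_right hN0.le hXδ1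
      _ ≤ X ^ η := g1
      _ ≤ U := hU
  obtain ⟨k1, hk1⟩ := ap_start ws W (N0 * P) (Nat.mul_pos hN hP0) hNPW w1
  obtain ⟨k0, hk0⟩ := ap_start us U N0 hN hNU u0
  set I := ⌊W / ((N0 * P : ℕ) : ℝ)⌋₊ + 1 with hI
  set J := ⌊U / (N0 : ℝ)⌋₊ + 1 with hJ
  have hIr : W / ((N0 * P : ℕ) : ℝ) ≤ I := by
    rw [hI]; push_cast; exact (Nat.lt_floor_add_one _).le
  have hJr : U / (N0 : ℝ) ≤ J := by
    rw [hJ]; push_cast; exact (Nat.lt_floor_add_one _).le
  let wv : ℕ → ℤ := fun i => w1 + ((N0 * P : ℕ) : ℤ) * (k1 + i)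
  let uv : ℕ → ℤ := fun j => u0 + (N0 : ℤ) * (k0 + j)
  let good : ℕ → ℕ → Prop := fun i j => ∀ ℓ : ℕ, ℓ.Prime → ¬ ℓ ∣ N0 →
    ¬ ((ℓ : ℤ) ∣ uv j ∧ (ℓ : ℤ) ∣ wv i)
  classical
  let E0 : Finset (ℕ × ℕ) := (range I ×ˢ range J).filter fun t => good t.1 t.2
  -- for each `i` many `j`
  have hcount : ∀ i ∈ range I, (J : ℝ) / 2 ≤ (((range J).filter fun j => good i j).card : ℝ) := by
    intro i hi
    have hwi := hk1 i (mem_range.1 hi)
    have hp0z : p0 ≤ z := by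
      have : (p0 : ℝ) < z := by linarith
      exact (by exact_mod_cast this : p0 < z).le
    -- small primes do not divide `w`
    have hsmall : ∀ ℓ : ℕ, ℓ.Prime → ¬ ℓ ∣ N0 → ℓ ≤ z → ¬ (ℓ : ℤ) ∣ wv i := by
      intro ℓ hℓ h1 h2 h3
      have h4 : (ℓ : ℤ) ∣ (P : ℤ) := Int.natCast_dvd_natCast.2 (PP_dvd hℓ h1 h2)
      have h5 : (ℓ : ℤ) ∣ 1 := by
        have e : (1 : ℤ) = wv i - ((P : ℤ) * (N0 * (k1 + i)) + (w1 - 1)) := by
          simp only [wv]; push_cast; ring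
        rw [e]
        exact h3.sub ((h4.mul_right _).add (h4.trans hw1'))
      have h6 := Int.natCast_dvd_natCast.1 (by simpa using h5 : (ℓ : ℤ) ∣ ((1 : ℕ) : ℤ))
      exact hℓ.one_lt.ne' (Nat.dvd_one.1 h6)
    have hwne : wv i ≠ 0 := by
      intro h0
      exact hsmall p0 hp0 hp0d hp0z (by rw [h0]; exact dvd_zero _)
    set S : Finset ℕ := ((wv i).natAbs.primeFactors).filter fun ℓ => ¬ ℓ ∣ N0 with hS
    have hSz : ∀ ℓ ∈ S, z < ℓ := by
      intro ℓ hℓ
      rw [hS, mem_filter, Nat.mem_primeFactors] at hℓ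
      by_contra hcon
      push Not at hcon
      exact hsmall ℓ hℓ.1.1 hℓ.2 hcon (Int.natCast_dvd.2 hℓ.1.2.1)
    have hSc := pow_card_le (wv i).natAbs (Int.natAbs_ne_zero.2 hwne) S (filter_subset _ _) hSz
    have hwX : ((wv i).natAbs : ℝ) ≤ X ^ A := by
      have h1 : ((wv i).natAbs : ℝ) = |((wv i : ℤ) : ℝ)| := by
        rw [Nat.cast_natAbs]; push_cast; rfl
      rw [h1]
      have h2 : |((wv i : ℤ) : ℝ)| ≤ |((wv i : ℤ) : ℝ) - ws| + |ws| := by
        have := abs_add_le (((wv i : ℤ) : ℝ) - ws) ws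
        rwa [sub_add_cancel] at this
      have h3 : |((wv i : ℤ) : ℝ) - ws| ≤ W := hwi
      linarith
    have hz0 : (0 : ℝ) < z := by linarith
    have hlz : 1 ≤ Real.log z := by
      rw [← Real.log_exp 1]
      apply Real.log_le_log (Real.exp_pos 1)
      have := Real.exp_one_lt_d9
      linarith
    have hSlog : (S.card : ℝ) * Real.log z ≤ A * Real.log X := by
      have h1 : ((z : ℝ)) ^ S.card ≤ X ^ A := by
        refine le_trans ?_ hwX
        exact_mod_cast hSc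
      have h2 := Real.log_le_log (by positivity) h1
      rwa [Real.log_pow, Real.log_rpow hXpos] at h2
    have hJpos : (0 : ℝ) < J := by rw [hJ]; positivity
    have hS1 : (S.card : ℝ) ≤ (z : ℝ) / 4 := by
      have h1 : 8 * A * (1 / κ) ≤ Real.log z := by
        refine g3.trans (Real.log_le_log ?_ hz2.le)
        linarith
      have h2 : κ * Real.log X / 2 ≤ z := by linarith
      have h3 : (S.card : ℝ) * (8 * A * (1 / κ)) ≤ A * Real.log X :=
        (mul_le_mul_of_nonneg_left h1 (Nat.cast_nonneg _)).trans hSlog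
      have h4 : (S.card : ℝ) * (8 * (1 / κ)) ≤ Real.log X := by
        have h5 : A * ((S.card : ℝ) * (8 * (1 / κ))) ≤ A * Real.log X := by
          calc _ = (S.card : ℝ) * (8 * A * (1 / κ)) := by ring
            _ ≤ _ := h3
        exact le_of_mul_le_mul_left h5 hA
      have h6 : (S.card : ℝ) * 8 ≤ κ * Real.log X := by
        have h7 := mul_le_mul_of_nonneg_left h4 hκ0.le
        calc (S.card : ℝ) * 8 = κ * ((S.card : ℝ) * (8 * (1 / κ))) := by field_simp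
          _ ≤ _ := h7
      linarith
    have hS2 : (S.card : ℝ) ≤ (J : ℝ) / 4 := by
      have h1 : (S.card : ℝ) ≤ A * Real.log X :=
        le_trans (le_mul_of_one_le_right (Nat.cast_nonneg _) hlz) hSlog
      have h2 : 4 * (A * Real.log X) ≤ U / N0 := by
        rw [le_div_iff₀ hN0]
        calc 4 * (A * Real.log X) * N0 = 4 * (N0 : ℝ) * (A * Real.log X) := by ring
          _ ≤ X ^ η := g5
          _ ≤ U := hU
      linarith
    -- the bad ones
    have hbad : (((range J).filter fun j => ¬ good i j).card : ℝ) ≤ (J : ℝ) / 2 := by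
      have h1 : ((range J).filter fun j => ¬ good i j) ⊆
          S.biUnion fun ℓ => (range J).filter fun j : ℕ => (ℓ : ℤ) ∣ (u0 + N0 * k0) + N0 * j := by
        intro j hj
        rw [mem_filter] at hj
        obtain ⟨hj1, hj2⟩ := hj
        simp only [good] at hj2
        push Not at hj2
        obtain ⟨ℓ, hℓ, h2, h3, h4⟩ := hj2
        rw [mem_biUnion]
        refine ⟨ℓ, ?_, ?_⟩
        · rw [hS, mem_filter, Nat.mem_primeFactors]
          exact ⟨⟨hℓ, Int.natCast_dvd.1 h4, Int.natAbs_ne_zero.2 hwne⟩, h2⟩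
        · rw [mem_filter]
          refine ⟨hj1, ?_⟩
          have e : u0 + (N0 : ℤ) * k0 + N0 * j = uv j := by simp only [uv]; ring
          rw [e]; exact h3
      have h2 : (((range J).filter fun j => ¬ good i j).card : ℝ) ≤
          ∑ ℓ ∈ S, (((J / ℓ + 1 : ℕ)) : ℝ) := by
        have h3 := Nat.cast_le (α := ℝ).2 ((card_le_card h1).trans card_biUnion_le)
        rw [Nat.cast_sum] at h3
        refine h3.trans (Finset.sum_le_sum fun ℓ hℓ => ?_)
        rw [hS, mem_filter, Nat.mem_primeFactors] at hℓ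
        exact Nat.cast_le.2 (ap_le J ℓ hℓ.1.1 N0 hℓ.2 _)
      have h3 : ∑ ℓ ∈ S, (((J / ℓ + 1 : ℕ)) : ℝ) ≤ ∑ _ℓ ∈ S, ((J : ℝ) / z + 1) := by
        refine Finset.sum_le_sum fun ℓ hℓ => ?_
        push_cast
        have h4 : ((J / ℓ : ℕ) : ℝ) ≤ (J : ℝ) / ℓ := Nat.cast_div_le
        have h5 : (J : ℝ) / ℓ ≤ (J : ℝ) / z := by
          apply div_le_div_of_nonneg_left hJpos.le hz0
          exact_mod_cast (hSz ℓ hℓ).le
        linarith
      rw [Finset.sum_const, nsmul_eq_mul] at h3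
      have h6 : (S.card : ℝ) * ((J : ℝ) / z + 1) ≤ (J : ℝ) / 2 := by
        have h7 : (S.card : ℝ) * ((J : ℝ) / z) ≤ (z : ℝ) / 4 * ((J : ℝ) / z) :=
          mul_le_mul_of_nonneg_right hS1 (by positivity)
        have h8 : (z : ℝ) / 4 * ((J : ℝ) / z) = J / 4 := by field_simp
        rw [mul_add, mul_one]
        linarith
      linarith
    have htot : (((range J).filter fun j => good i j).card : ℝ) +
        (((range J).filter fun j => ¬ good i j).card : ℝ) = J := by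
      have := card_filter_add_card_filter_not (s := range J) (fun j => good i j)
      rw [card_range] at this
      exact_mod_cast this
    linarith
  have hE0 : (I : ℝ) * ((J : ℝ) / 2) ≤ (E0.card : ℝ) := by
    have h1 : (E0.card : ℝ) = ∑ i ∈ range I, (((range J).filter fun j => good i j).card : ℝ) := by
      have h2 : E0.card = ∑ i ∈ range I, ((range J).filter fun j => good i j).card := by
        simp only [E0, card_filter]
        rw [Finset.sum_product]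
      rw [h2]
      push_cast
      rfl
    rw [h1]
    calc (I : ℝ) * ((J : ℝ) / 2) = ∑ _i ∈ range I, ((J : ℝ) / 2) := by
          rw [Finset.sum_const, card_range, nsmul_eq_mul]
      _ ≤ _ := Finset.sum_le_sum hcount
  let φ : ℕ × ℕ → ℤ × ℤ := fun t => (uv t.2, wv t.1)
  have hφ : Function.Injective φ := by
    rintro ⟨i, j⟩ ⟨i', j'⟩ h
    simp only [φ, Prod.mk.injEq, uv, wv] at h
    obtain ⟨h1, h2⟩ := h
    have hN0' : (N0 : ℤ) ≠ 0 := by exact_mod_cast hN.ne'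
    have hNP' : ((N0 * P : ℕ) : ℤ) ≠ 0 := by exact_mod_cast (Nat.mul_pos hN hP0).ne'
    have h3 : (k0 + j : ℤ) = k0 + j' := mul_left_cancel₀ hN0' (add_left_cancel h1)
    have h4 : (k1 + i : ℤ) = k1 + i' := mul_left_cancel₀ hNP' (add_left_cancel h2)
    have h5 : j = j' := by omega
    have h6 : i = i' := by omega
    rw [h5, h6]
  refine ⟨E0.image φ, ?_, ?_⟩
  · intro e he
    rw [mem_image] at he
    obtain ⟨⟨i, j⟩, ht, rfl⟩ := he
    simp only [E0, mem_filter, mem_product, mem_range] at ht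
    obtain ⟨⟨hi, hj⟩, hg⟩ := ht
    refine ⟨hk0 j hj, hk1 i hi, ?_, ?_, hg⟩
    · simp only [φ, uv]
      exact ⟨k0 + j, by ring⟩
    · simp only [φ, wv]
      have e : w1 + ((N0 * P : ℕ) : ℤ) * (k1 + i) - w0 =
          (w1 - w0) + N0 * (P * (k1 + i)) := by push_cast; ring
      rw [e]
      exact hw1.add (Dvd.intro _ rfl)
  · rw [card_image_of_injective _ hφ]
    refine le_trans ?_ hE0
    have h1 : W / ((N0 * P : ℕ) : ℝ) * (U / (N0 : ℝ) / 2) ≤ (I : ℝ) * ((J : ℝ) / 2) := by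
      have hW0 : 0 ≤ W := by
        have : (0 : ℝ) ≤ X ^ η := by positivity
        linarith
      have hU0 : 0 ≤ U := by
        have : (0 : ℝ) ≤ X ^ η := by positivity
        linarith
      gcongr
    refine le_trans ?_ h1
    have hW0 : 0 ≤ W := by
      have : (0 : ℝ) ≤ X ^ η := by positivity
      linarith
    have hU0 : 0 ≤ U := by
      have : (0 : ℝ) ≤ X ^ η := by positivity
      linarith
    have h2 : W / ((N0 * P : ℕ) : ℝ) * (U / (N0 : ℝ) / 2) = U * W / (2 * (N0 : ℝ) ^ 2 * P) := by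
      push_cast
      field_simp
    rw [h2]
    have h3 : 2 * (N0 : ℝ) ^ 2 * P ≤ X ^ δ := by
      calc 2 * (N0 : ℝ) ^ 2 * P ≤ X ^ δ' * X ^ δ' := by gcongr
        _ = X ^ (2 * δ') := by rw [← Real.rpow_add hXpos]; ring_nf
        _ ≤ X ^ δ := Real.rpow_le_rpow_of_exponent_le g6.le hδ1
    rw [Real.rpow_neg hXpos.le, ← div_eq_mul_inv]
    apply div_le_div_of_nonneg_left (by positivity) (by positivity) h3

end Pool.Agent.X4.MK
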