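import Mathlib

/-!
# The lattice of the pairs `(a, b)` with `M1 ∣ a`, `M2 ∣ b`, `M3 ∣ a + b`
-/

set_option autoImplicit false

namespace Pool.Agent.X4.MK

/-- the lattice -/
structure InL (M1 M2 M3 : ℕ) (a b : ℤ) : Prop where
  h1 : (M1 : ℤ) ∣ a
  h2 : (M2 : ℤ) ∣ b
  h3 : (M3 : ℤ) ∣ a + b

variable {M1 M2 M3 : ℕ}

theorem InL.comb {a b a' b' : ℤ} (h : InL M1 M2 M3 a b) (h' : InL M1 M2 M3 a' b') (u w : ℤ) :
    InL M1 M2 M3 (u * a + w * a') (u * b + w * b') := by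
  refine ⟨(h.h1.mul_left _).add (h'.h1.mul_left _), (h.h2.mul_left _).add (h'.h2.mul_left _), ?_⟩
  have e : u * a + w * a' + (u * b + w * b') = u * (a + b) + w * (a' + b') := by ring
  rw [e]
  exact (h.h3.mul_left _).add (h'.h3.mul_left _)

/-- the pairwise coprimality of the three moduli -/
structure PC (M1 M2 M3 : ℕ) : Prop where
  p1 : 0 < M1
  p2 : 0 < M2
  p3 : 0 < M3
  c12 : Nat.Coprime M1 M2
  c13 : Nat.Coprime M1 M3
  c23 : Nat.Coprime M2 M3

theorem prod_dvd (hM : PC M1 M2 M3) {n : ℤ} (h1 : (M1 : ℤ) ∣ n) (h2 : (M2 : ℤ) ∣ n)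
    (h3 : (M3 : ℤ) ∣ n) : ((M1 * M2 * M3 : ℕ) : ℤ) ∣ n := by
  have c1 : IsCoprime (M1 : ℤ) (M2 : ℤ) := Nat.isCoprime_iff_coprime.2 hM.c12
  have c2 : IsCoprime ((M1 : ℤ) * M2) (M3 : ℤ) :=
    IsCoprime.mul_left (Nat.isCoprime_iff_coprime.2 hM.c13) (Nat.isCoprime_iff_coprime.2 hM.c23)
  push_cast
  exact c2.mul_dvd (c1.mul_dvd h1 h2) h3

theorem det_dvd (hM : PC M1 M2 M3) {a b a' b' : ℤ} (h : InL M1 M2 M3 a b)
    (h' : InL M1 M2 M3 a' b') : ((M1 * M2 * M3 : ℕ) : ℤ) ∣ a * b' - a' * b := by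
  refine prod_dvd hM ?_ ?_ ?_
  · exact (h.h1.mul_right _).sub (h'.h1.mul_right _)
  · exact (h'.h2.mul_left _).sub (h.h2.mul_left _)
  · have e : a * b' - a' * b = a * (a' + b') - a' * (a + b) := by ring
    rw [e]
    exact (h'.h3.mul_left _).sub (h.h3.mul_left _)

/-- a short vector -/
theorem exists_short (hM : PC M1 M2 M3) : ∃ a b : ℤ, (a ≠ 0 ∨ b ≠ 0) ∧ InL M1 M2 M3 a b ∧
    max a.natAbs b.natAbs ≤ Nat.sqrt (M1 * M2 * M3) := by
  set D := M1 * M2 * M3 with hD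
  set K := Nat.sqrt D with hK
  have : NeZero M1 := ⟨hM.p1.ne'⟩
  have : NeZero M2 := ⟨hM.p2.ne'⟩
  have : NeZero M3 := ⟨hM.p3.ne'⟩
  let f : Fin (K + 1) × Fin (K + 1) → ZMod M1 × ZMod M2 × ZMod M3 := fun t =>
    (((t.1 : ℕ) : ZMod M1), ((t.2 : ℕ) : ZMod M2), (((t.1 : ℕ) + (t.2 : ℕ) : ℕ) : ZMod M3))
  have hcard : Fintype.card (ZMod M1 × ZMod M2 × ZMod M3) <
      Fintype.card (Fin (K + 1) × Fin (K + 1)) := by
    simp only [Fintype.card_prod, ZMod.card, Fintype.card_fin]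
    have := Nat.lt_succ_sqrt D
    rw [← mul_assoc, ← hD]
    exact this
  obtain ⟨s, t, hst, hf⟩ := Fintype.exists_ne_map_eq_of_card_lt f hcard
  simp only [f, Prod.mk.injEq] at hf
  obtain ⟨f1, f2, f3⟩ := hf
  refine ⟨(s.1 : ℕ) - (t.1 : ℕ), (s.2 : ℕ) - (t.2 : ℕ), ?_, ⟨?_, ?_, ?_⟩, ?_⟩
  · by_contra hcon
    push Not at hcon
    apply hst
    ext
    · omega
    · omega
  · rw [← ZMod.intCast_zmod_eq_zero_iff_dvd]
    push_cast
    rw [f1, sub_self]
  · rw [← ZMod.intCast_zmod_eq_zero_iff_dvd]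
    push_cast
    rw [f2, sub_self]
  · rw [← ZMod.intCast_zmod_eq_zero_iff_dvd]
    push_cast at f3 ⊢
    linear_combination f3
  · have h1 := s.1.2
    have h2 := s.2.2
    have h3 := t.1.2
    have h4 := t.2.2
    refine max_le ?_ ?_ <;> omega

/-- two vectors spanning the lattice, the first one as short as possible -/
structure Bas (M1 M2 M3 : ℕ) (a1 b1 a2 b2 : ℤ) : Prop where
  l1 : InL M1 M2 M3 a1 b1
  l2 : InL M1 M2 M3 a2 b2
  det : a1 * b2 - a2 * b1 = ((M1 * M2 * M3 : ℕ) : ℤ) ∨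
    a1 * b2 - a2 * b1 = -((M1 * M2 * M3 : ℕ) : ℤ)
  nz : a1 ≠ 0 ∨ b1 ≠ 0
  sq : max a1.natAbs b1.natAbs * max a1.natAbs b1.natAbs ≤ M1 * M2 * M3
  pr : max a1.natAbs b1.natAbs * max a2.natAbs b2.natAbs ≤ 2 * (M1 * M2 * M3)

theorem exists_bezout3 {x y z : ℤ} (h : ∀ d : ℕ, (d : ℤ) ∣ x → (d : ℤ) ∣ y → (d : ℤ) ∣ z → d = 1) :
    ∃ r s t : ℤ, r * x + s * y + t * z = 1 := by
  have e1 := Int.gcd_eq_gcd_ab x y
  have e2 := Int.gcd_eq_gcd_ab (Int.gcd x y) z
  have h1 : Int.gcd (Int.gcd x y) z = 1 := by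
    apply h
    · exact (Int.gcd_dvd_left _ _).trans (Int.gcd_dvd_left _ _)
    · exact (Int.gcd_dvd_left _ _).trans (Int.gcd_dvd_right _ _)
    · exact Int.gcd_dvd_right _ _
  rw [h1] at e2
  refine ⟨Int.gcdA x y * Int.gcdA (Int.gcd x y) z, Int.gcdB x y * Int.gcdA (Int.gcd x y) z,
    Int.gcdB (Int.gcd x y) z, ?_⟩
  have e3 : (1 : ℤ) = (Int.gcd x y : ℤ) * Int.gcdA (Int.gcd x y) z +
      z * Int.gcdB (Int.gcd x y) z := by exact_mod_cast e2
  linear_combination (-1 : ℤ) * e3 - Int.gcdA (Int.gcd x y) z * e1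

theorem exists_bas (hM : PC M1 M2 M3) : ∃ a1 b1 a2 b2 : ℤ, Bas M1 M2 M3 a1 b1 a2 b2 := by
  classical
  have hex : ∃ n : ℕ, ∃ a b : ℤ, (a ≠ 0 ∨ b ≠ 0) ∧ InL M1 M2 M3 a b ∧
      max a.natAbs b.natAbs = n := by
    obtain ⟨a, b, h1, h2, -⟩ := exists_short hM
    exact ⟨_, a, b, h1, h2, rfl⟩
  obtain ⟨a1, b1, hnz, hl1, hn⟩ := Nat.find_spec hex
  have hmin : ∀ a b : ℤ, (a ≠ 0 ∨ b ≠ 0) → InL M1 M2 M3 a b →
      max a1.natAbs b1.natAbs ≤ max a.natAbs b.natAbs := by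
    intro a b h1 h2
    rw [hn]
    exact Nat.find_min' hex ⟨a, b, h1, h2, rfl⟩
  have hsq : max a1.natAbs b1.natAbs * max a1.natAbs b1.natAbs ≤ M1 * M2 * M3 := by
    obtain ⟨a, b, h1, h2, h3⟩ := exists_short hM
    have h4 := (hmin a b h1 h2).trans h3
    exact (Nat.mul_le_mul h4 h4).trans (Nat.sqrt_le _)
  obtain ⟨x, hx⟩ := hl1.h1
  obtain ⟨y, hy⟩ := hl1.h2
  obtain ⟨z, hz⟩ := hl1.h3
  have hbz := exists_bezout3 (x := x) (y := y) (z := z) (by
    intro d hdx hdy hdz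
    obtain ⟨x', hx'⟩ := hdx
    obtain ⟨y', hy'⟩ := hdy
    obtain ⟨z', hz'⟩ := hdz
    by_contra hd1
    rcases Nat.eq_zero_or_pos d with hd0 | hd0
    · subst hd0
      simp only [Nat.cast_zero, zero_mul] at hx' hy'
      rw [hx', mul_zero] at hx
      rw [hy', mul_zero] at hy
      rcases hnz with h | h
      · exact h hx
      · exact h hy
    · have hd2 : 2 ≤ d := by omega
      have e1 : a1 = d * (M1 * x') := by rw [hx, hx']; ring
      have e2 : b1 = d * (M2 * y') := by rw [hy, hy']; ring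
      have hl : InL M1 M2 M3 (M1 * x') (M2 * y') := by
        refine ⟨Dvd.intro _ rfl, Dvd.intro _ rfl, ⟨z', ?_⟩⟩
        have hdz : (d : ℤ) ≠ 0 := by exact_mod_cast hd0.ne'
        apply mul_left_cancel₀ hdz
        calc (d : ℤ) * (M1 * x' + M2 * y') = a1 + b1 := by rw [e1, e2]; ring
          _ = M3 * z := hz
          _ = d * (M3 * z') := by rw [hz']; ring
      have hnz' : (M1 : ℤ) * x' ≠ 0 ∨ (M2 : ℤ) * y' ≠ 0 := by
        rcases hnz with h | h
        · left; intro h0; apply h; rw [e1, h0, mul_zero]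
        · right; intro h0; apply h; rw [e2, h0, mul_zero]
      have h5 := hmin _ _ hnz' hl
      have h6 : max a1.natAbs b1.natAbs =
          d * max ((M1 : ℤ) * x').natAbs ((M2 : ℤ) * y').natAbs := by
        rw [e1, e2, Int.natAbs_mul, Int.natAbs_mul (d : ℤ) ((M2 : ℤ) * y'), Int.natAbs_natCast,
          mul_max]
      have h7 : 0 < max ((M1 : ℤ) * x').natAbs ((M2 : ℤ) * y').natAbs := by
        rcases hnz' with h | h
        · exact lt_max_of_lt_left (Int.natAbs_pos.2 h)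
        · exact lt_max_of_lt_right (Int.natAbs_pos.2 h)
      rw [h6] at h5
      nlinarith)
  obtain ⟨r, s, t, hrst⟩ := hbz
  have hzz : (M1 : ℤ) * x + M2 * y = M3 * z := by rw [← hx, ← hy, hz]
  set A2 : ℤ := M1 * (M2 * t + M3 * s) with hA2
  set B2 : ℤ := M2 * (-(M3 * r + M1 * t)) with hB2
  have hl2 : InL M1 M2 M3 A2 B2 := by
    refine ⟨Dvd.intro _ rfl, Dvd.intro _ rfl, ⟨M1 * s - M2 * r, ?_⟩⟩
    rw [hA2, hB2]; ring
  have hdet : a1 * B2 - A2 * b1 = -((M1 * M2 * M3 : ℕ) : ℤ) := by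
    rw [hA2, hB2, hx, hy]
    push_cast
    linear_combination (-(M1 : ℤ) * M2 * M3) * hrst - (M1 * M2 * t : ℤ) * hzz
  -- reduction
  have hred : ∀ k : ℤ, a1 * (B2 - k * b1) - (A2 - k * a1) * b1 = -((M1 * M2 * M3 : ℕ) : ℤ) := by
    intro k
    rw [← hdet]; ring
  have hlk : ∀ k : ℤ, InL M1 M2 M3 (A2 - k * a1) (B2 - k * b1) := by
    intro k
    have := hl1.comb hl2 (-k) 1
    have e1 : -k * a1 + 1 * A2 = A2 - k * a1 := by ring
    have e2 : -k * b1 + 1 * B2 = B2 - k * b1 := by ring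
    rwa [e1, e2] at this
  rcases le_total b1.natAbs a1.natAbs with hle | hle
  · have hmax : max a1.natAbs b1.natAbs = a1.natAbs := max_eq_left hle
    have ha1 : a1 ≠ 0 := by
      rcases hnz with h | h
      · exact h
      · intro h0
        rw [h0] at hle
        simp at hle
        exact h hle
    refine ⟨a1, b1, A2 - (A2 / a1) * a1, B2 - (A2 / a1) * b1, hl1, hlk _, Or.inr (hred _), hnz,
      hsq, ?_⟩
    rw [hmax] at hsq ⊢
    set k := A2 / a1 with hk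
    have h1 : (A2 - k * a1).natAbs < a1.natAbs := by
      have e : A2 - k * a1 = A2 % a1 := by
        rw [hk, Int.emod_def]; ring
      rw [e]
      have h8 := Int.emod_lt_abs A2 ha1
      have h9 := Int.emod_nonneg A2 ha1
      rw [Int.abs_eq_natAbs] at h8
      omega
    have h2 : a1.natAbs * (B2 - k * b1).natAbs ≤ 2 * (M1 * M2 * M3) := by
      have h3 : a1 * (B2 - k * b1) = (A2 - k * a1) * b1 - ((M1 * M2 * M3 : ℕ) : ℤ) := by
        linear_combination hred k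
      rw [← Int.natAbs_mul, h3]
      refine (Int.natAbs_sub_le _ _).trans ?_
      rw [Int.natAbs_natCast, Int.natAbs_mul]
      have h4 : (A2 - k * a1).natAbs * b1.natAbs ≤ a1.natAbs * a1.natAbs :=
        Nat.mul_le_mul h1.le hle
      omega
    rw [mul_max]
    refine max_le ?_ h2
    have h5 : a1.natAbs * (A2 - k * a1).natAbs ≤ a1.natAbs * a1.natAbs := Nat.mul_le_mul_left _ h1.le
    omega
  · have hmax : max a1.natAbs b1.natAbs = b1.natAbs := max_eq_right hle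
    have hb1 : b1 ≠ 0 := by
      rcases hnz with h | h
      · intro h0
        rw [h0] at hle
        simp at hle
        exact h hle
      · exact h
    refine ⟨a1, b1, A2 - (B2 / b1) * a1, B2 - (B2 / b1) * b1, hl1, hlk _, Or.inr (hred _), hnz,
      hsq, ?_⟩
    rw [hmax] at hsq ⊢
    set k := B2 / b1 with hk
    have h1 : (B2 - k * b1).natAbs < b1.natAbs := by
      have e : B2 - k * b1 = B2 % b1 := by
        rw [hk, Int.emod_def]; ring
      rw [e]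
      have h8 := Int.emod_lt_abs B2 hb1
      have h9 := Int.emod_nonneg B2 hb1
      rw [Int.abs_eq_natAbs] at h8
      omega
    have h2 : b1.natAbs * (A2 - k * a1).natAbs ≤ 2 * (M1 * M2 * M3) := by
      have h3 : b1 * (A2 - k * a1) = a1 * (B2 - k * b1) + ((M1 * M2 * M3 : ℕ) : ℤ) := by
        linear_combination -hred k
      rw [← Int.natAbs_mul, h3]
      refine (Int.natAbs_add_le _ _).trans ?_
      rw [Int.natAbs_natCast, Int.natAbs_mul]
      have h4 : a1.natAbs * (B2 - k * b1).natAbs ≤ b1.natAbs * b1.natAbs :=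
        Nat.mul_le_mul hle h1.le
      omega
    rw [mul_max]
    refine max_le h2 ?_
    have h5 : b1.natAbs * (B2 - k * b1).natAbs ≤ b1.natAbs * b1.natAbs := Nat.mul_le_mul_left _ h1.le
    omega

end Pool.Agent.X4.MK
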