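import Mathlib
import Pool.Agent.Y670.RD.Rid

/-!
# Ridout's theorem for the product `A B (A + B)`
-/

set_option autoImplicit false

namespace Pool.Agent.X4.MK

open Polynomial Finset Pool.Agent.Y670.RD

noncomputable def gp : ℤ[X] := X * (X + 1) * (2 * X + 1)

theorem gp_eq : gp = C 2 * X ^ 3 + C 3 * X ^ 2 + C 1 * X + C 0 := by
  unfold gp
  simp only [map_ofNat, map_one, map_zero]
  ring

theorem gp_deg : gp.natDegree = 3 := by
  rw [gp_eq]
  exact natDegree_cubic (by norm_num)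

theorem fv_gp (s t : ℤ) : fv gp.natDegree gp s t = s * (s + t) * (2 * s + t) := by
  rw [gp_deg]
  unfold fv
  have h0 : gp.coeff 0 = 0 := by rw [gp_eq]; simp
  have h1 : gp.coeff 1 = 1 := by rw [gp_eq]; simp [coeff_X]
  have h2 : gp.coeff 2 = 3 := by rw [gp_eq]; simp [coeff_X]
  have h3 : gp.coeff 3 = 2 := by rw [gp_eq]; simp [coeff_X]
  simp only [Finset.sum_range_succ, Finset.sum_range_zero, h0, h1, h2, h3]
  ring

theorem gp_sqf : Squarefree (gp.map (Int.castRingHom ℚ)) := by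
  have e : gp.map (Int.castRingHom ℚ) = (X * (X + 1)) * (2 * X + 1) := by
    unfold gp
    simp
  rw [e]
  have i1 : Irreducible (X : ℚ[X]) := irreducible_X
  have i2 : Irreducible (X + 1 : ℚ[X]) := by
    have : (X + 1 : ℚ[X]) = X - C (-1) := by simp
    rw [this]
    exact irreducible_X_sub_C _
  have i3 : Irreducible (2 * X + 1 : ℚ[X]) := by
    apply irreducible_of_degree_eq_one
    have : (2 * X + 1 : ℚ[X]) = C 2 * X + C 1 := by simp only [map_ofNat, map_one]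
    rw [this]
    exact degree_linear (by norm_num)
  have c1 : IsCoprime (X : ℚ[X]) (X + 1) := ⟨-1, 1, by ring⟩
  have c2 : IsCoprime (X * (X + 1) : ℚ[X]) (2 * X + 1) := ⟨-4, 2 * X + 1, by ring⟩
  rw [squarefree_mul_iff, squarefree_mul_iff]
  exact ⟨c2.isRelPrime, ⟨c1.isRelPrime, i1.squarefree, i2.squarefree⟩, i3.squarefree⟩

theorem prod_padic_le (T : Finset ℕ) (hT : ∀ p ∈ T, p.Prime) (n : ℕ) (hn : n ≠ 0)
    (hnT : n.primeFactors ⊆ T) (G : ℤ) (h : (n : ℤ) ∣ G) :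
    (n : ℝ) * ∏ ℓ ∈ T, (padicNorm ℓ (G : ℚ) : ℝ) ≤ 1 := by
  have h2 : ∀ ℓ ∈ T, (padicNorm ℓ (n : ℚ) : ℝ) = ((ℓ : ℝ) ^ n.factorization ℓ)⁻¹ := by
    intro ℓ hℓ
    have hp := hT ℓ hℓ
    have : Fact ℓ.Prime := ⟨hp⟩
    rw [padicNorm.eq_zpow_of_nonzero (by exact_mod_cast hn), padicValRat.of_nat,
      Nat.factorization_def n hp, Rat.cast_zpow, Rat.cast_natCast, zpow_neg, zpow_natCast]
  have h3 : ∏ ℓ ∈ T, (ℓ : ℝ) ^ n.factorization ℓ = n := by
    have h4 : ∏ ℓ ∈ T, ℓ ^ n.factorization ℓ = n := by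
      have h5 := Nat.prod_factorization_pow_eq_self hn
      rw [Finsupp.prod_of_support_subset (s := T) _ (by rwa [Nat.support_factorization]) _
        (fun i _ => pow_zero i)] at h5
      exact h5
    calc ∏ ℓ ∈ T, (ℓ : ℝ) ^ n.factorization ℓ = ((∏ ℓ ∈ T, ℓ ^ n.factorization ℓ : ℕ) : ℝ) := by
          push_cast; rfl
      _ = n := by rw [h4]
  have h1 : (n : ℝ) * ∏ ℓ ∈ T, (padicNorm ℓ (n : ℚ) : ℝ) = 1 := by
    rw [Finset.prod_congr rfl h2, Finset.prod_inv_distrib, h3]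
    exact mul_inv_cancel₀ (by exact_mod_cast hn)
  refine le_trans (mul_le_mul_of_nonneg_left ?_ (Nat.cast_nonneg n)) h1.le
  refine Finset.prod_le_prod (fun ℓ _ => by exact_mod_cast padicNorm.nonneg _) fun ℓ hℓ => ?_
  have : Fact ℓ.Prime := ⟨hT ℓ hℓ⟩
  obtain ⟨k, rfl⟩ := h
  have h6 : padicNorm ℓ (((n : ℤ) * k : ℤ) : ℚ) ≤ padicNorm ℓ (n : ℚ) := by
    push_cast
    rw [padicNorm.mul]
    exact mul_le_of_le_one_right (padicNorm.nonneg _) (padicNorm.of_int k)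
  exact_mod_cast h6

/-- Ridout's theorem for coprime `A`, `B` and the product `A B (A + B)`. -/
theorem rid_prod (T : Finset ℕ) (hT : ∀ p ∈ T, p.Prime) (ε : ℝ) (hε : 0 < ε) (hε1 : ε ≤ 1) :
    ∃ c : ℝ, 0 < c ∧ ∀ A B : ℤ, IsCoprime A B → A * B * (A + B) ≠ 0 → ∀ P : ℕ, P ≠ 0 →
      P.primeFactors ⊆ T → (P : ℤ) ∣ A * B * (A + B) →
      c * (max |(A : ℝ)| |(B : ℝ)|) ^ (1 - ε) * P ≤ |((A * B * (A + B) : ℤ) : ℝ)| := by
  obtain ⟨c, hc, H⟩ := rid_form' gp gp_sqf (by rw [gp_deg]; norm_num) T hT ε hε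
  refine ⟨c * (1 / 2) ^ (1 - ε), by positivity, ?_⟩
  intro A B hAB h0 P hP hPT hd
  have hco : IsCoprime A (B - A) := by
    have := hAB.add_mul_left_right (-1)
    rwa [show B + A * (-1) = B - A by ring] at this
  have e : fv gp.natDegree gp A (B - A) = A * B * (A + B) := by
    rw [fv_gp]; ring
  have h := H A (B - A) hco (by rw [e]; exact h0)
  rw [e, gp_deg] at h
  have h1 := prod_padic_le T hT P hP hPT _ hd
  have hP0 : (0 : ℝ) < P := by exact_mod_cast Nat.pos_of_ne_zero hP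
  have h2 : ∏ ℓ ∈ T, (padicNorm ℓ ((A * B * (A + B) : ℤ) : ℚ) : ℝ) ≤ 1 / P := by
    rw [le_div_iff₀ hP0, mul_comm]
    exact h1
  have h3 : (max |(A : ℝ)| |(B : ℝ)|) * (1 / 2) ≤ max |(A : ℝ)| |((B - A : ℤ) : ℝ)| := by
    push_cast
    have h4 : |(B : ℝ)| ≤ |(A : ℝ)| + |(B : ℝ) - A| := by
      have := abs_add_le (A : ℝ) (B - A)
      rwa [add_sub_cancel] at this
    have h5 := le_max_left |(A : ℝ)| |(B : ℝ) - A|
    have h6 := le_max_right |(A : ℝ)| |(B : ℝ) - A|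
    have h7 : max |(A : ℝ)| |(B : ℝ)| ≤ 2 * max |(A : ℝ)| |(B : ℝ) - A| :=
      max_le (by linarith [abs_nonneg (A : ℝ)]) (by linarith)
    linarith
  have hM0 : 0 ≤ max |(A : ℝ)| |(B : ℝ)| := le_max_of_le_left (abs_nonneg _)
  have h8 : (max |(A : ℝ)| |(B : ℝ)|) ^ (1 - ε) * (1 / 2) ^ (1 - ε) ≤
      (max |(A : ℝ)| |((B - A : ℤ) : ℝ)|) ^ (1 - ε) := by
    rw [← Real.mul_rpow hM0 (by norm_num)]
    exact Real.rpow_le_rpow (by positivity) h3 (by linarith)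
  have h9 : c * ((max |(A : ℝ)| |(B : ℝ)|) ^ (1 - ε) * (1 / 2) ^ (1 - ε)) ≤
      |((A * B * (A + B) : ℤ) : ℝ)| * (1 / P) := by
    refine le_trans (mul_le_mul_of_nonneg_left h8 hc.le) ?_
    have e2 : (3 : ℕ) - 2 - ε = 1 - ε := by norm_num
    rw [e2] at h
    exact h.trans (mul_le_mul_of_nonneg_left h2 (abs_nonneg _))
  rw [mul_one_div, le_div_iff₀ hP0] at h9
  calc _ = c * ((max |(A : ℝ)| |(B : ℝ)|) ^ (1 - ε) * (1 / 2) ^ (1 - ε)) * P := by ring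
    _ ≤ _ := h9

end Pool.Agent.X4.MK
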