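import Mathlib
import Pool.Agent.X4.MK.Rid
import Pool.Agent.X4.MK.Lat

/-!
# The short vectors of the lattice are not too short; residue classes
-/

set_option autoImplicit false

namespace Pool.Agent.X4.MK

theorem div_gcd_dvd {M g n : ℕ} (hM : 0 < M) (h : M ∣ g * n) : M / Nat.gcd M g ∣ n := by
  have hd : 0 < Nat.gcd M g := Nat.gcd_pos_of_pos_left _ hM
  have h1 : M / Nat.gcd M g ∣ g / Nat.gcd M g * n := by
    obtain ⟨k, hk⟩ := h
    refine ⟨k, ?_⟩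
    have e1 : Nat.gcd M g * (M / Nat.gcd M g) = M := Nat.mul_div_cancel' (Nat.gcd_dvd_left _ _)
    have e2 : Nat.gcd M g * (g / Nat.gcd M g) = g := Nat.mul_div_cancel' (Nat.gcd_dvd_right _ _)
    apply Nat.eq_of_mul_eq_mul_left hd
    calc Nat.gcd M g * (g / Nat.gcd M g * n) = (Nat.gcd M g * (g / Nat.gcd M g)) * n := by ring
      _ = M * k := by rw [e2, hk]
      _ = (Nat.gcd M g * (M / Nat.gcd M g)) * k := by rw [e1]
      _ = _ := by ring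
  exact (Nat.coprime_div_gcd_div_gcd hd).dvd_of_dvd_mul_left h1

variable {M1 M2 M3 : ℕ}

theorem low (T : Finset ℕ) (hT : ∀ p ∈ T, p.Prime) (ε : ℝ) (hε : 0 < ε) (hε1 : ε ≤ 1) :
    ∃ c : ℝ, 0 < c ∧ ∀ M1 M2 M3 : ℕ, PC M1 M2 M3 → M1.primeFactors ⊆ T → M2.primeFactors ⊆ T →
      M3.primeFactors ⊆ T → ∀ a b : ℤ, InL M1 M2 M3 a b → a * b * (a + b) ≠ 0 →
      c * ((M1 * M2 * M3 : ℕ) : ℝ) ≤ (max |(a : ℝ)| |(b : ℝ)|) ^ (2 + ε) := by
  obtain ⟨c, hc, H⟩ := rid_prod T hT ε hε hε1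
  refine ⟨c / 2, by positivity, ?_⟩
  intro M1 M2 M3 hM t1 t2 t3 a b hL h0
  have ha : a ≠ 0 := by rintro rfl; simp at h0
  have hb : b ≠ 0 := by rintro rfl; simp at h0
  have hab : a + b ≠ 0 := by intro h; rw [h] at h0; simp at h0
  set g := Int.gcd a b with hg
  have hgpos : 0 < g := Int.gcd_pos_of_ne_zero_left _ ha
  obtain ⟨A, B, hco, hA, hB⟩ := Int.exists_gcd_one hgpos
  rw [← hg] at hA hB
  have hAB : IsCoprime A B := Int.isCoprime_iff_gcd_eq_one.2 hco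
  have hA0 : A ≠ 0 := by rintro rfl; simp at hA; exact ha hA
  have hB0 : B ≠ 0 := by rintro rfl; simp at hB; exact hb hB
  have hC : a + b = (A + B) * g := by rw [hA, hB]; ring
  have hC0 : A + B ≠ 0 := by intro h; rw [h] at hC; simp at hC; exact hab hC
  have d1 : M1 / Nat.gcd M1 g ∣ A.natAbs := by
    apply div_gcd_dvd hM.p1
    have := Int.natAbs_dvd_natAbs.2 hL.h1
    rw [hA, Int.natAbs_mul, Int.natAbs_natCast, Int.natAbs_natCast, mul_comm] at this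
    exact this
  have d2 : M2 / Nat.gcd M2 g ∣ B.natAbs := by
    apply div_gcd_dvd hM.p2
    have := Int.natAbs_dvd_natAbs.2 hL.h2
    rw [hB, Int.natAbs_mul, Int.natAbs_natCast, Int.natAbs_natCast, mul_comm] at this
    exact this
  have d3 : M3 / Nat.gcd M3 g ∣ (A + B).natAbs := by
    apply div_gcd_dvd hM.p3
    have := Int.natAbs_dvd_natAbs.2 hL.h3
    rw [hC, Int.natAbs_mul, Int.natAbs_natCast, Int.natAbs_natCast, mul_comm] at this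
    exact this
  set P : ℕ := (M1 / Nat.gcd M1 g) * (M2 / Nat.gcd M2 g) * (M3 / Nat.gcd M3 g) with hP
  have hPd : (P : ℤ) ∣ A * B * (A + B) := by
    have h1 : P ∣ (A * B * (A + B)).natAbs := by
      rw [Int.natAbs_mul, Int.natAbs_mul, hP]
      exact mul_dvd_mul (mul_dvd_mul d1 d2) d3
    exact Int.natCast_dvd.2 h1
  have e1 : M1 / Nat.gcd M1 g * Nat.gcd M1 g = M1 := Nat.div_mul_cancel (Nat.gcd_dvd_left _ _)
  have e2 : M2 / Nat.gcd M2 g * Nat.gcd M2 g = M2 := Nat.div_mul_cancel (Nat.gcd_dvd_left _ _)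
  have e3 : M3 / Nat.gcd M3 g * Nat.gcd M3 g = M3 := Nat.div_mul_cancel (Nat.gcd_dvd_left _ _)
  have hDP : M1 * M2 * M3 = P * (Nat.gcd M1 g * Nat.gcd M2 g * Nat.gcd M3 g) := by
    conv_lhs => rw [← e1, ← e2, ← e3]
    rw [hP]; ring
  have hP0 : P ≠ 0 := by
    intro h
    rw [h, zero_mul] at hDP
    have := hM.p1
    have := hM.p2
    have := hM.p3
    have : 0 < M1 * M2 * M3 := by positivity
    omega
  have hPT : P.primeFactors ⊆ T := by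
    intro ℓ hℓ
    rw [Nat.mem_primeFactors] at hℓ
    have h1 : ℓ ∣ M1 * M2 * M3 := by rw [hDP]; exact hℓ.2.1.mul_right _
    rcases (Nat.Prime.dvd_mul hℓ.1).1 h1 with h2 | h2
    · rcases (Nat.Prime.dvd_mul hℓ.1).1 h2 with h3 | h3
      · exact t1 (Nat.mem_primeFactors.2 ⟨hℓ.1, h3, hM.p1.ne'⟩)
      · exact t2 (Nat.mem_primeFactors.2 ⟨hℓ.1, h3, hM.p2.ne'⟩)
    · exact t3 (Nat.mem_primeFactors.2 ⟨hℓ.1, h2, hM.p3.ne'⟩)
  have hgd : Nat.gcd M1 g * Nat.gcd M2 g * Nat.gcd M3 g ∣ g := by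
    have c12 : Nat.Coprime (Nat.gcd M1 g) (Nat.gcd M2 g) :=
      Nat.Coprime.coprime_dvd_left (Nat.gcd_dvd_left _ _)
        (Nat.Coprime.coprime_dvd_right (Nat.gcd_dvd_left _ _) hM.c12)
    have c13 : Nat.Coprime (Nat.gcd M1 g) (Nat.gcd M3 g) :=
      Nat.Coprime.coprime_dvd_left (Nat.gcd_dvd_left _ _)
        (Nat.Coprime.coprime_dvd_right (Nat.gcd_dvd_left _ _) hM.c13)
    have c23 : Nat.Coprime (Nat.gcd M2 g) (Nat.gcd M3 g) :=
      Nat.Coprime.coprime_dvd_left (Nat.gcd_dvd_left _ _)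
        (Nat.Coprime.coprime_dvd_right (Nat.gcd_dvd_left _ _) hM.c23)
    exact Nat.Coprime.mul_dvd_of_dvd_of_dvd (Nat.Coprime.mul_left c13 c23)
      (Nat.Coprime.mul_dvd_of_dvd_of_dvd c12 (Nat.gcd_dvd_right _ _) (Nat.gcd_dvd_right _ _))
      (Nat.gcd_dvd_right _ _)
  have hDle : M1 * M2 * M3 ≤ P * g := by
    rw [hDP]
    exact Nat.mul_le_mul_left _ (Nat.le_of_dvd hgpos hgd)
  have hne : A * B * (A + B) ≠ 0 := mul_ne_zero (mul_ne_zero hA0 hB0) hC0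
  have key := H A B hAB hne P hP0 hPT hPd
  set h : ℝ := max |(A : ℝ)| |(B : ℝ)| with hh
  have hh1 : 1 ≤ h := by
    refine le_max_of_le_left ?_
    exact_mod_cast Int.one_le_abs hA0
  have hh0 : 0 < h := by linarith
  have hprod : |((A * B * (A + B) : ℤ) : ℝ)| ≤ 2 * h ^ 3 := by
    push_cast
    rw [abs_mul, abs_mul]
    have i1 : |(A : ℝ)| ≤ h := le_max_left _ _
    have i2 : |(B : ℝ)| ≤ h := le_max_right _ _
    have i3 : |(A : ℝ) + B| ≤ 2 * h := (abs_add_le _ _).trans (by linarith)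
    calc |(A : ℝ)| * |(B : ℝ)| * |(A : ℝ) + B| ≤ h * h * (2 * h) := by gcongr
      _ = 2 * h ^ 3 := by ring
  have hg1 : (1 : ℝ) ≤ g := by exact_mod_cast hgpos
  have hmax : max |(a : ℝ)| |(b : ℝ)| = h * g := by
    rw [hA, hB, hh]
    push_cast
    rw [abs_mul, abs_mul, abs_of_nonneg (by linarith : (0 : ℝ) ≤ g),
      max_mul_of_nonneg _ _ (by linarith : (0 : ℝ) ≤ g)]
  rw [hmax, Real.mul_rpow hh0.le (by linarith)]
  have hDle' : ((M1 * M2 * M3 : ℕ) : ℝ) ≤ P * g := by exact_mod_cast hDle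
  have k1 : c * P ≤ 2 * h ^ (2 + ε) := by
    have k2 : c * h ^ (1 - ε) * P ≤ 2 * h ^ 3 := key.trans hprod
    have k3 : h ^ (3 : ℕ) = h ^ (1 - ε) * h ^ (2 + ε) := by
      rw [← Real.rpow_add hh0, ← Real.rpow_natCast]
      congr 1
      push_cast
      ring
    rw [k3] at k2
    have k4 : 0 < h ^ (1 - ε) := by positivity
    have k5 : h ^ (1 - ε) * (c * P) ≤ h ^ (1 - ε) * (2 * h ^ (2 + ε)) := by linarith
    exact le_of_mul_le_mul_left k5 k4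
  have k6 : (g : ℝ) ≤ (g : ℝ) ^ (2 + ε) := by
    conv_lhs => rw [← Real.rpow_one (g : ℝ)]
    exact Real.rpow_le_rpow_of_exponent_le hg1 (by linarith)
  have hP0' : (0 : ℝ) ≤ P := Nat.cast_nonneg _
  calc c / 2 * ((M1 * M2 * M3 : ℕ) : ℝ) ≤ c / 2 * (P * g) :=
        mul_le_mul_of_nonneg_left hDle' (by positivity)
    _ = (c * P) / 2 * g := by ring
    _ ≤ (2 * h ^ (2 + ε)) / 2 * (g : ℝ) ^ (2 + ε) := by gcongr
    _ = h ^ (2 + ε) * (g : ℝ) ^ (2 + ε) := by ring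

theorem low2 {c ε : ℝ} {a b : ℤ} (hM : PC M1 M2 M3) (hL : InL M1 M2 M3 a b)
    (hnz : a ≠ 0 ∨ b ≠ 0)
    (h : a * b * (a + b) ≠ 0 →
      c * ((M1 * M2 * M3 : ℕ) : ℝ) ≤ (max |(a : ℝ)| |(b : ℝ)|) ^ (2 + ε)) :
    c * ((M1 * M2 * M3 : ℕ) : ℝ) ≤ ((max a.natAbs b.natAbs : ℕ) : ℝ) ^ (2 + ε) ∨
      M1 * M2 ≤ max a.natAbs b.natAbs ∨ M1 * M3 ≤ max a.natAbs b.natAbs ∨
      M2 * M3 ≤ max a.natAbs b.natAbs := by
  by_cases h0 : a * b * (a + b) = 0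
  · right
    rcases mul_eq_zero.1 h0 with h1 | h1
    · rcases mul_eq_zero.1 h1 with h2 | h2
      · -- a = 0
        right; right
        have hb : b ≠ 0 := by
          rcases hnz with h3 | h3
          · exact absurd h2 h3
          · exact h3
        have h4 : (M3 : ℤ) ∣ b := by have := hL.h3; rwa [h2, zero_add] at this
        have h5 : M2 * M3 ∣ b.natAbs := hM.c23.mul_dvd_of_dvd_of_dvd
          (Int.natCast_dvd.1 hL.h2) (Int.natCast_dvd.1 h4)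
        exact le_max_of_le_right (Nat.le_of_dvd (Int.natAbs_pos.2 hb) h5)
      · -- b = 0
        right; left
        have ha : a ≠ 0 := by
          rcases hnz with h3 | h3
          · exact h3
          · exact absurd h2 h3
        have h4 : (M3 : ℤ) ∣ a := by have := hL.h3; rwa [h2, add_zero] at this
        have h5 : M1 * M3 ∣ a.natAbs := hM.c13.mul_dvd_of_dvd_of_dvd
          (Int.natCast_dvd.1 hL.h1) (Int.natCast_dvd.1 h4)
        exact le_max_of_le_left (Nat.le_of_dvd (Int.natAbs_pos.2 ha) h5)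
    · left
      have e : b = -a := by linarith
      have ha : a ≠ 0 := by
        rcases hnz with h3 | h3
        · exact h3
        · intro h4; apply h3; rw [e, h4]; simp
      have h4 : (M2 : ℤ) ∣ a := by have := hL.h2; rw [e] at this; exact (dvd_neg).1 this
      have h5 : M1 * M2 ∣ a.natAbs := hM.c12.mul_dvd_of_dvd_of_dvd
        (Int.natCast_dvd.1 hL.h1) (Int.natCast_dvd.1 h4)
      exact le_max_of_le_left (Nat.le_of_dvd (Int.natAbs_pos.2 ha) h5)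
  · left
    have h1 := h h0
    have e : ((max a.natAbs b.natAbs : ℕ) : ℝ) = max |(a : ℝ)| |(b : ℝ)| := by
      rw [Nat.cast_max, Nat.cast_natAbs, Nat.cast_natAbs]
      push_cast
      rfl
    rw [e]
    exact h1

/-! ### residue classes -/

/-- the condition `Q` holds for all `(u, w)` in a residue class modulo `n` -/
def Cls (n : ℕ) (Q : ℤ → ℤ → Prop) : Prop :=
  ∃ u0 w0 : ℤ, ∀ u w : ℤ, (n : ℤ) ∣ u - u0 → (n : ℤ) ∣ w - w0 → Q u w

theorem Cls.and {n1 n2 : ℕ} {Q1 Q2 : ℤ → ℤ → Prop} (hc : Nat.Coprime n1 n2) (h1 : Cls n1 Q1)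
    (h2 : Cls n2 Q2) : Cls (n1 * n2) fun u w => Q1 u w ∧ Q2 u w := by
  obtain ⟨u1, w1, H1⟩ := h1
  obtain ⟨u2, w2, H2⟩ := h2
  obtain ⟨r, s, hrs⟩ : IsCoprime (n1 : ℤ) (n2 : ℤ) := Nat.isCoprime_iff_coprime.2 hc
  refine ⟨u1 * (s * n2) + u2 * (r * n1), w1 * (s * n2) + w2 * (r * n1), ?_⟩
  intro u w hu hw
  push_cast at hu hw
  have a1 : (n1 : ℤ) ∣ u - (u1 * (s * n2) + u2 * (r * n1)) := (Dvd.intro _ rfl).trans hu
  have a2 : (n2 : ℤ) ∣ u - (u1 * (s * n2) + u2 * (r * n1)) := (Dvd.intro_left _ rfl).trans hu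
  have a3 : (n1 : ℤ) ∣ w - (w1 * (s * n2) + w2 * (r * n1)) := (Dvd.intro _ rfl).trans hw
  have a4 : (n2 : ℤ) ∣ w - (w1 * (s * n2) + w2 * (r * n1)) := (Dvd.intro_left _ rfl).trans hw
  refine ⟨H1 u w ?_ ?_, H2 u w ?_ ?_⟩
  · have e : u - u1 = (u - (u1 * (s * n2) + u2 * (r * n1))) + n1 * (r * (u2 - u1)) := by
      linear_combination u1 * hrs
    rw [e]; exact a1.add (Dvd.intro _ rfl)
  · have e : w - w1 = (w - (w1 * (s * n2) + w2 * (r * n1))) + n1 * (r * (w2 - w1)) := by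
      linear_combination w1 * hrs
    rw [e]; exact a3.add (Dvd.intro _ rfl)
  · have e : u - u2 = (u - (u1 * (s * n2) + u2 * (r * n1))) + n2 * (s * (u1 - u2)) := by
      linear_combination u2 * hrs
    rw [e]; exact a2.add (Dvd.intro _ rfl)
  · have e : w - w2 = (w - (w1 * (s * n2) + w2 * (r * n1))) + n2 * (s * (w1 - w2)) := by
      linear_combination w2 * hrs
    rw [e]; exact a4.add (Dvd.intro _ rfl)

/-- a linear form which is not zero modulo the prime `p` -/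
theorem cls_prime (p : ℕ) (hp : p.Prime) (x1 x2 : ℤ) (h : ¬ ((p : ℤ) ∣ x1 ∧ (p : ℤ) ∣ x2)) :
    Cls p fun u w => ¬ (p : ℤ) ∣ u * x1 + w * x2 := by
  by_cases h1 : (p : ℤ) ∣ x1
  · have h2 : ¬ (p : ℤ) ∣ x2 := fun h2 => h ⟨h1, h2⟩
    refine ⟨0, 1, fun u w hu hw hcon => h2 ?_⟩
    have e : x2 = (u * x1 + w * x2) - u * x1 - (w - 1) * x2 := by ring
    rw [e]
    exact (hcon.sub (h1.mul_left _)).sub (hw.mul_right _)
  · refine ⟨1, 0, fun u w hu hw hcon => h1 ?_⟩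
    rw [sub_zero] at hw
    have e : x1 = (u * x1 + w * x2) - w * x2 - (u - 1) * x1 := by ring
    rw [e]
    exact (hcon.sub (hw.mul_right _)).sub (hu.mul_right _)

theorem cls_mod (m : ℕ) {a1 b1 a2 b2 : ℤ} (hB : Bas M1 M2 M3 a1 b1 a2 b2)
    (hm : Nat.Coprime m (M1 * M2 * M3)) (a0 b0 : ℤ) :
    Cls m fun u w => (m : ℤ) ∣ (u * a1 + w * a2) - a0 ∧ (m : ℤ) ∣ (u * b1 + w * b2) - b0 := by
  obtain ⟨r, s, hrs⟩ : IsCoprime (m : ℤ) ((M1 * M2 * M3 : ℕ) : ℤ) :=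
    Nat.isCoprime_iff_coprime.2 hm
  obtain ⟨t, ht⟩ : ∃ t : ℤ, (m : ℤ) ∣ t * (a1 * b2 - a2 * b1) - 1 := by
    rcases hB.det with h | h
    · exact ⟨s, ⟨-r, by rw [h]; linear_combination hrs⟩⟩
    · exact ⟨-s, ⟨-r, by rw [h]; linear_combination hrs⟩⟩
  refine ⟨t * (a0 * b2 - a2 * b0), t * (a1 * b0 - a0 * b1), fun u w hu hw => ⟨?_, ?_⟩⟩
  · have e : (u * a1 + w * a2) - a0 = (u - t * (a0 * b2 - a2 * b0)) * a1 +
        (w - t * (a1 * b0 - a0 * b1)) * a2 + (t * (a1 * b2 - a2 * b1) - 1) * a0 := by ring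
    rw [e]
    exact ((hu.mul_right _).add (hw.mul_right _)).add (ht.mul_right _)
  · have e : (u * b1 + w * b2) - b0 = (u - t * (a0 * b2 - a2 * b0)) * b1 +
        (w - t * (a1 * b0 - a0 * b1)) * b2 + (t * (a1 * b2 - a2 * b1) - 1) * b0 := by ring
    rw [e]
    exact ((hu.mul_right _).add (hw.mul_right _)).add (ht.mul_right _)

theorem det_mul_dvd {n a1 b1 a2 b2 : ℤ} (hB : Bas M1 M2 M3 a1 b1 a2 b2)
    (h : n ∣ a1 * b2 - a2 * b1) : n ∣ ((M1 * M2 * M3 : ℕ) : ℤ) := by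
  rcases hB.det with e | e
  · rwa [e] at h
  · rw [e] at h
    exact (dvd_neg).1 h

theorem not_both1 {p : ℕ} (hp : p.Prime) (hM : PC M1 M2 M3) (hpM : p ∣ M1) {a1 b1 a2 b2 : ℤ}
    (hB : Bas M1 M2 M3 a1 b1 a2 b2) : ¬ ((p : ℤ) ∣ b1 ∧ (p : ℤ) ∣ b2) := by
  rintro ⟨h1, h2⟩
  have h3 : (M1 : ℤ) * p ∣ a1 * b2 - a2 * b1 :=
    (mul_dvd_mul hB.l1.h1 h2).sub (mul_dvd_mul hB.l2.h1 h1)
  have h4 := det_mul_dvd hB h3
  have h5 : M1 * p ∣ M1 * (M2 * M3) := by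
    rw [← mul_assoc]; exact_mod_cast h4
  have h6 := Nat.dvd_of_mul_dvd_mul_left hM.p1 h5
  rcases (Nat.Prime.dvd_mul hp).1 h6 with h7 | h7
  · exact Nat.not_coprime_of_dvd_of_dvd hp.one_lt hpM h7 hM.c12
  · exact Nat.not_coprime_of_dvd_of_dvd hp.one_lt hpM h7 hM.c13

theorem not_both2 {p : ℕ} (hp : p.Prime) (hM : PC M1 M2 M3) (hpM : p ∣ M2) {a1 b1 a2 b2 : ℤ}
    (hB : Bas M1 M2 M3 a1 b1 a2 b2) : ¬ ((p : ℤ) ∣ a1 ∧ (p : ℤ) ∣ a2) := by
  rintro ⟨h1, h2⟩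
  have h3 : (p : ℤ) * M2 ∣ a1 * b2 - a2 * b1 :=
    (mul_dvd_mul h1 hB.l2.h2).sub (mul_dvd_mul h2 hB.l1.h2)
  have h4 := det_mul_dvd hB h3
  have h5 : M2 * p ∣ M2 * (M1 * M3) := by
    rw [show M2 * (M1 * M3) = M1 * M2 * M3 by ring, mul_comm M2 p]; exact_mod_cast h4
  have h6 := Nat.dvd_of_mul_dvd_mul_left hM.p2 h5
  rcases (Nat.Prime.dvd_mul hp).1 h6 with h7 | h7
  · exact Nat.not_coprime_of_dvd_of_dvd hp.one_lt h7 hpM hM.c12
  · exact Nat.not_coprime_of_dvd_of_dvd hp.one_lt hpM h7 hM.c23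

theorem not_both3 {p : ℕ} (hp : p.Prime) (hM : PC M1 M2 M3) (hpM : p ∣ M3) {a1 b1 a2 b2 : ℤ}
    (hB : Bas M1 M2 M3 a1 b1 a2 b2) : ¬ ((p : ℤ) ∣ a1 ∧ (p : ℤ) ∣ a2) := by
  rintro ⟨h1, h2⟩
  have h3 : (p : ℤ) * M3 ∣ a1 * b2 - a2 * b1 := by
    have e : a1 * b2 - a2 * b1 = a1 * (a2 + b2) - a2 * (a1 + b1) := by ring
    rw [e]
    exact (mul_dvd_mul h1 hB.l2.h3).sub (mul_dvd_mul h2 hB.l1.h3)
  have h4 := det_mul_dvd hB h3
  have h5 : M3 * p ∣ M3 * (M1 * M2) := by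
    rw [show M3 * (M1 * M2) = M1 * M2 * M3 by ring, mul_comm M3 p]; exact_mod_cast h4
  have h6 := Nat.dvd_of_mul_dvd_mul_left hM.p3 h5
  rcases (Nat.Prime.dvd_mul hp).1 h6 with h7 | h7
  · exact Nat.not_coprime_of_dvd_of_dvd hp.one_lt h7 hpM hM.c13
  · exact Nat.not_coprime_of_dvd_of_dvd hp.one_lt h7 hpM hM.c23

end Pool.Agent.X4.MK
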