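import Mathlib
import Pool.Agent.X4.MK.Low
import Pool.Agent.X4.MK.Cnt

/-!
# Auxiliary statements for the core theorem
-/

set_option autoImplicit false

namespace Pool.Agent.X4.MK

open Finset Filter

theorem natAbs_cast_le_max {a b : ℤ} : |(a : ℝ)| ≤ ((max a.natAbs b.natAbs : ℕ) : ℝ) := by
  rw [Nat.cast_max, Nat.cast_natAbs, Nat.cast_natAbs]
  push_cast
  exact le_max_left _ _

theorem natAbs_cast_le_max' {a b : ℤ} : |(b : ℝ)| ≤ ((max a.natAbs b.natAbs : ℕ) : ℝ) := by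
  rw [Nat.cast_max, Nat.cast_natAbs, Nat.cast_natAbs]
  push_cast
  exact le_max_right _ _

/-- powers eventually dominate constants -/
theorem ev_pow {c x y : ℝ} (hc : 0 < c) (h : y < x) : ∀ᶠ X : ℝ in atTop, X ^ y ≤ c * X ^ x := by
  have h1 := tendsto_rpow_atTop (show 0 < x - y by linarith)
  filter_upwards [h1.eventually_ge_atTop (1 / c), eventually_gt_atTop 0] with X h2 h3
  have h4 : 1 ≤ c * X ^ (x - y) := by
    rw [div_le_iff₀ hc] at h2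
    linarith
  calc X ^ y = 1 * X ^ y := (one_mul _).symm
    _ ≤ c * X ^ (x - y) * X ^ y := mul_le_mul_of_nonneg_right h4 (by positivity)
    _ = c * X ^ x := by rw [mul_assoc, ← Real.rpow_add h3]; ring_nf

theorem pc_of {p q r : ℕ} (hp : p.Prime) (hq : q.Prime) (hr : r.Prime) (hpq : p ≠ q) (hpr : p ≠ r)
    (hqr : q ≠ r) (e1 e2 e3 : ℕ) : PC (p ^ e1) (q ^ e2) (r ^ e3) where
  p1 := pow_pos hp.pos _
  p2 := pow_pos hq.pos _
  p3 := pow_pos hr.pos _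
  c12 := Nat.Coprime.pow _ _ ((Nat.coprime_primes hp hq).2 hpq)
  c13 := Nat.Coprime.pow _ _ ((Nat.coprime_primes hp hr).2 hpr)
  c23 := Nat.Coprime.pow _ _ ((Nat.coprime_primes hq hr).2 hqr)

theorem region {X θ1 θ2 a b : ℝ} (hX : 0 < X) (h0 : 0 ≤ θ1) (h12 : θ1 < θ2) (h1 : θ2 ≤ 1)
    (ha : |a - (θ1 + θ2) / 2 * (3 * X / 4)| ≤ (θ2 - θ1) / 32 * X)
    (hb : |b - (1 - (θ1 + θ2) / 2) * (3 * X / 4)| ≤ (θ2 - θ1) / 32 * X) :
    X / 2 < a + b ∧ a + b ≤ X ∧ θ1 * (a + b) < a ∧ a < θ2 * (a + b) ∧ 0 < a ∧ 0 < b := by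
  rw [abs_le] at ha hb
  set Y : ℝ := (θ2 - θ1) / 32 * X with hY
  have hY0 : 0 < Y := by
    have : 0 < θ2 - θ1 := by linarith
    positivity
  have hYX : Y ≤ X / 32 := by
    rw [hY]
    have : (θ2 - θ1) / 32 ≤ 1 / 32 := by linarith
    have := mul_le_mul_of_nonneg_right this hX.le
    linarith
  obtain ⟨ha1, ha2⟩ := ha
  obtain ⟨hb1, hb2⟩ := hb
  set A : ℝ := a - (θ1 + θ2) / 2 * (3 * X / 4) with hA
  set C : ℝ := a + b - 3 * X / 4 with hC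
  have hC1 : -(2 * Y) ≤ C := by
    have : C = A + (b - (1 - (θ1 + θ2) / 2) * (3 * X / 4)) := by rw [hC, hA]; ring
    linarith
  have hC2 : C ≤ 2 * Y := by
    have : C = A + (b - (1 - (θ1 + θ2) / 2) * (3 * X / 4)) := by rw [hC, hA]; ring
    linarith
  have e1 : X / 2 < a + b := by linarith
  have e2 : a + b ≤ X := by linarith
  have hθ1 : θ1 ≤ 1 := by linarith
  have hθ2 : 0 ≤ θ2 := by linarith
  have e3 : θ1 * (a + b) < a := by
    have k1 : a - θ1 * (a + b) = A - θ1 * C + 12 * Y := by rw [hA, hC, hY]; ring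
    have k3 : θ1 * C ≤ 2 * Y := by
      calc θ1 * C ≤ θ1 * (2 * Y) := mul_le_mul_of_nonneg_left hC2 h0
        _ ≤ 1 * (2 * Y) := mul_le_mul_of_nonneg_right hθ1 (by positivity)
        _ = 2 * Y := one_mul _
    linarith
  have e4 : a < θ2 * (a + b) := by
    have k1 : θ2 * (a + b) - a = -A + θ2 * C + 12 * Y := by rw [hA, hC, hY]; ring
    have k3 : -(2 * Y) ≤ θ2 * C := by
      calc -(2 * Y) = 1 * (-(2 * Y)) := (one_mul _).symm
        _ ≤ θ2 * (-(2 * Y)) := by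
            have := mul_le_mul_of_nonneg_right h1 (show 0 ≤ 2 * Y by positivity)
            linarith
        _ ≤ θ2 * C := mul_le_mul_of_nonneg_left hC1 hθ2
    linarith
  have hab : 0 < a + b := by linarith
  have e5 : 0 < a := lt_of_le_of_lt (mul_nonneg h0 hab.le) e3
  have e6 : 0 < b := by
    have : a < 1 * (a + b) := lt_of_lt_of_le e4 (mul_le_mul_of_nonneg_right h1 hab.le)
    linarith
  exact ⟨e1, e2, e3, e4, e5, e6⟩

/-- first range -/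
theorem rangeU {ρ K τ X L1 D : ℝ} (hρ : 0 < ρ) (hK : 0 < K) (hX : 0 < X) (hL : 0 < L1)
    (hsq : L1 * L1 ≤ D) (hDK : D ≤ K * X ^ τ) :
    ρ / 2 * K ^ (-(1 / 2) : ℝ) * X ^ (1 - τ / 2) ≤ ρ * X / (2 * L1) := by
  have k1 : L1 ≤ (K * X ^ τ) ^ ((1 : ℝ) / 2) := by
    rw [← Real.sqrt_eq_rpow]
    apply Real.le_sqrt_of_sq_le
    rw [sq]
    exact hsq.trans hDK
  have k2 : (K * X ^ τ) ^ ((1 : ℝ) / 2) = K ^ ((1 : ℝ) / 2) * X ^ (τ / 2) := by
    rw [Real.mul_rpow hK.le (by positivity), ← Real.rpow_mul hX.le]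
    congr 2; ring
  rw [k2] at k1
  have k3 : ρ / 2 * K ^ (-(1 / 2) : ℝ) * X ^ (1 - τ / 2) =
      ρ * X / (2 * (K ^ ((1 : ℝ) / 2) * X ^ (τ / 2))) := by
    rw [Real.rpow_neg hK.le, Real.rpow_sub hX, Real.rpow_one]
    field_simp
  rw [k3]
  apply div_le_div_of_nonneg_left (by positivity) (by positivity)
  linarith

/-- second range, general case -/
theorem rangeW {ρ K τ X L1 D c ε : ℝ} (hρ : 0 < ρ) (hK : 0 < K) (hX : 0 < X) (hL : 0 < L1)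
    (hD : 0 < D) (hc : 0 < c) (hε : 0 < ε) (hDK : D ≤ K * X ^ τ) (h : c * D ≤ L1 ^ (2 + ε)) :
    ρ / 4 * (c ^ (1 / (2 + ε)) * K ^ (-((1 + ε) / (2 + ε)))) * X ^ (1 - τ * ((1 + ε) / (2 + ε))) ≤
      ρ * X * L1 / (4 * D) := by
  set E1 : ℝ := (1 + ε) / (2 + ε) with hE1
  have hE10 : 0 < E1 := by positivity
  have k1 : (c * D) ^ (1 / (2 + ε)) ≤ L1 := by
    have k2 := Real.rpow_le_rpow (by positivity) h (show 0 ≤ 1 / (2 + ε) by positivity)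
    rw [← Real.rpow_mul hL.le, mul_one_div_cancel (by positivity), Real.rpow_one] at k2
    exact k2
  rw [Real.mul_rpow hc.le hD.le] at k1
  have k3 : D ^ (1 / (2 + ε)) = D * D ^ (-E1) := by
    have e : 1 / (2 + ε) = 1 + -E1 := by rw [hE1]; field_simp; ring
    rw [e, Real.rpow_add hD, Real.rpow_one]
  have k4 : (K * X ^ τ) ^ (-E1) ≤ D ^ (-E1) :=
    Real.rpow_le_rpow_of_nonpos hD hDK (by linarith)
  have k5 : (K * X ^ τ) ^ (-E1) = K ^ (-E1) * X ^ (-(τ * E1)) := by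
    rw [Real.mul_rpow hK.le (by positivity), ← Real.rpow_mul hX.le]
    congr 2; ring
  have k6 : X ^ (1 - τ * E1) = X * X ^ (-(τ * E1)) := by
    rw [sub_eq_add_neg, Real.rpow_add hX, Real.rpow_one]
  have k7 : ρ * X * L1 / (4 * D) = ρ / 4 * X * (L1 / D) := by field_simp
  have k8 : c ^ (1 / (2 + ε)) * D ^ (-E1) ≤ L1 / D := by
    rw [le_div_iff₀ hD]
    calc c ^ (1 / (2 + ε)) * D ^ (-E1) * D =
        c ^ (1 / (2 + ε)) * (D * D ^ (-E1)) := by ring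
      _ = c ^ (1 / (2 + ε)) * D ^ (1 / (2 + ε)) := by rw [k3]
      _ ≤ L1 := k1
  rw [k7, k6]
  calc ρ / 4 * (c ^ (1 / (2 + ε)) * K ^ (-E1)) * (X * X ^ (-(τ * E1))) =
      ρ / 4 * X * (c ^ (1 / (2 + ε)) * (K ^ (-E1) * X ^ (-(τ * E1)))) := by ring
    _ = ρ / 4 * X * (c ^ (1 / (2 + ε)) * (K * X ^ τ) ^ (-E1)) := by rw [k5]
    _ ≤ ρ / 4 * X * (c ^ (1 / (2 + ε)) * D ^ (-E1)) := by gcongr
    _ ≤ ρ / 4 * X * (L1 / D) := by gcongr

/-- second range, degenerate cases -/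
theorem rangeW' {ρ X L1 D N M k α : ℝ} (hρ : 0 < ρ) (hX : 0 < X) (hN : 0 < N)
    (hM : 0 < M) (hk : 0 < k) (hDM : D = N * M) (hM' : M ≤ k * X ^ (1 - α)) (h : N ≤ L1) :
    ρ / (4 * k) * X ^ α ≤ ρ * X * L1 / (4 * D) := by
  have k1 : ρ * X * N / (4 * D) ≤ ρ * X * L1 / (4 * D) := by
    have : 0 < D := by rw [hDM]; positivity
    gcongr
  refine le_trans ?_ k1
  have k2 : ρ * X * N / (4 * D) = ρ * X / (4 * M) := by
    rw [hDM]; field_simp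
  rw [k2, le_div_iff₀ (by positivity)]
  calc ρ / (4 * k) * X ^ α * (4 * M) ≤
      ρ / (4 * k) * X ^ α * (4 * (k * X ^ (1 - α))) := by gcongr
    _ = ρ * (X ^ α * X ^ (1 - α)) := by field_simp
    _ = ρ * X := by
        rw [← Real.rpow_add hX]
        norm_num

/-- coprimality -/
theorem coprime_of {M1 M2 M3 : ℕ} {p q r m : ℕ} (hp : p.Prime) (hq : q.Prime) (hr : r.Prime)
    {e1 e2 e3 : ℕ} (h1 : M1 = p ^ e1) (h2 : M2 = q ^ e2) (h3 : M3 = r ^ e3)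
    {a1 b1 a2 b2 : ℤ} (hB : Bas M1 M2 M3 a1 b1 a2 b2) (a0 b0 : ℤ)
    (hab : ∀ ℓ : ℕ, ℓ.Prime → ℓ ∣ m → ¬ ((ℓ : ℤ) ∣ a0 ∧ (ℓ : ℤ) ∣ b0)) {u w : ℤ}
    (hnc : ∀ ℓ : ℕ, ℓ.Prime → ¬ ℓ ∣ m * p * q * r → ¬ ((ℓ : ℤ) ∣ u ∧ (ℓ : ℤ) ∣ w))
    (hma : (m : ℤ) ∣ (u * a1 + w * a2) - a0) (hmb : (m : ℤ) ∣ (u * b1 + w * b2) - b0)
    (hpb : ¬ (p : ℤ) ∣ u * b1 + w * b2) (hqa : ¬ (q : ℤ) ∣ u * a1 + w * a2)
    (hra : ¬ (r : ℤ) ∣ u * a1 + w * a2) :
    IsCoprime (u * a1 + w * a2) (u * b1 + w * b2) := by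
  set a : ℤ := u * a1 + w * a2 with ha
  set b : ℤ := u * b1 + w * b2 with hb
  rw [Int.isCoprime_iff_gcd_eq_one]
  by_contra hg
  obtain ⟨ℓ, hℓ, hℓg⟩ := Nat.exists_prime_and_dvd hg
  have hℓa : (ℓ : ℤ) ∣ a := (Int.natCast_dvd_natCast.2 hℓg).trans (Int.gcd_dvd_left _ _)
  have hℓb : (ℓ : ℤ) ∣ b := (Int.natCast_dvd_natCast.2 hℓg).trans (Int.gcd_dvd_right _ _)
  by_cases hℓN : ℓ ∣ m * p * q * r
  · rcases (Nat.Prime.dvd_mul hℓ).1 hℓN with k | k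
    · rcases (Nat.Prime.dvd_mul hℓ).1 k with k | k
      · rcases (Nat.Prime.dvd_mul hℓ).1 k with k | k
        · have k1 : (ℓ : ℤ) ∣ (m : ℤ) := Int.natCast_dvd_natCast.2 k
          have k2 : (ℓ : ℤ) ∣ a0 := by
            have := hℓa.sub (k1.trans hma)
            rwa [sub_sub_cancel] at this
          have k3 : (ℓ : ℤ) ∣ b0 := by
            have := hℓb.sub (k1.trans hmb)
            rwa [sub_sub_cancel] at this
          exact hab ℓ hℓ k ⟨k2, k3⟩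
        · rw [(Nat.prime_dvd_prime_iff_eq hℓ hp).1 k] at hℓb
          exact hpb hℓb
      · rw [(Nat.prime_dvd_prime_iff_eq hℓ hq).1 k] at hℓa
        exact hqa hℓa
    · rw [(Nat.prime_dvd_prime_iff_eq hℓ hr).1 k] at hℓa
      exact hra hℓa
  · have hℓD : ¬ ℓ ∣ M1 * M2 * M3 := by
      intro k
      apply hℓN
      rw [h1, h2, h3] at k
      rcases (Nat.Prime.dvd_mul hℓ).1 k with k | k
      · rcases (Nat.Prime.dvd_mul hℓ).1 k with k | k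
        · have := hℓ.dvd_of_dvd_pow k
          exact ((this.mul_left m).mul_right q).mul_right r
        · have := hℓ.dvd_of_dvd_pow k
          exact (this.mul_left (m * p)).mul_right r
      · have := hℓ.dvd_of_dvd_pow k
        exact this.mul_left (m * p * q)
    have hpr2 : Prime (ℓ : ℤ) := Nat.prime_iff_prime_int.1 hℓ
    have hnd : ¬ (ℓ : ℤ) ∣ (a1 * b2 - a2 * b1) := by
      intro k
      have := det_mul_dvd hB k
      exact hℓD (Int.natCast_dvd_natCast.1 this)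
    have k1 : (ℓ : ℤ) ∣ u * (a1 * b2 - a2 * b1) := by
      have e : u * (a1 * b2 - a2 * b1) = a * b2 - b * a2 := by rw [ha, hb]; ring
      rw [e]
      exact (hℓa.mul_right _).sub (hℓb.mul_right _)
    have k2 : (ℓ : ℤ) ∣ w * (a1 * b2 - a2 * b1) := by
      have e : w * (a1 * b2 - a2 * b1) = b * a1 - a * b1 := by rw [ha, hb]; ring
      rw [e]
      exact (hℓb.mul_right _).sub (hℓa.mul_right _)
    exact hnc ℓ hℓ hℓN ⟨(hpr2.dvd_or_dvd k1).resolve_right hnd,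
      (hpr2.dvd_or_dvd k2).resolve_right hnd⟩

/-- from coefficients to vectors -/
theorem dist_le {x1 x2 us ws u w U W L1 L2 R xs : ℝ} (hsol : us * x1 + ws * x2 = xs)
    (h1 : |x1| ≤ L1) (h2 : |x2| ≤ L2) (hu : |u - us| ≤ U) (hw : |w - ws| ≤ W)
    (hR : U * L1 + W * L2 ≤ R) : |u * x1 + w * x2 - xs| ≤ R := by
  have e : u * x1 + w * x2 - xs = (u - us) * x1 + (w - ws) * x2 := by rw [← hsol]; ring
  rw [e]
  have hU : 0 ≤ U := (abs_nonneg _).trans hu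
  have hW : 0 ≤ W := (abs_nonneg _).trans hw
  calc _ ≤ |(u - us) * x1| + |(w - ws) * x2| := abs_add_le _ _
    _ = |u - us| * |x1| + |w - ws| * |x2| := by rw [abs_mul, abs_mul]
    _ ≤ U * L1 + W * L2 := by gcongr
    _ ≤ R := hR

theorem ws_le {x1 y1 as bs Δ D L1 X : ℝ} (hD : 0 < D) (hΔ : |Δ| = D) (hL : 0 < L1)
    (hLD : L1 ≤ D) (hX : 0 < X) (hx : |x1| ≤ L1) (hy : |y1| ≤ L1) (ha0 : 0 ≤ as) (ha : as ≤ X)
    (hb0 : 0 ≤ bs) (hb : bs ≤ X) : |(x1 * bs - as * y1) / Δ| ≤ 2 * X := by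
  rw [abs_div, hΔ, div_le_iff₀ hD]
  calc |x1 * bs - as * y1| ≤ |x1 * bs| + |as * y1| := abs_sub _ _
    _ = |x1| * bs + as * |y1| := by rw [abs_mul, abs_mul, abs_of_nonneg hb0, abs_of_nonneg ha0]
    _ ≤ L1 * X + X * L1 :=
        add_le_add (mul_le_mul hx hb hb0 hL.le) (mul_le_mul ha hy (abs_nonneg _) hX.le)
    _ = 2 * X * L1 := by ring
    _ ≤ 2 * X * D := by gcongr

end Pool.Agent.X4.MK
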