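import Mathlib
import Pool.Agent.X4.MK.Pre

/-!
# Many coprime pairs `(a, b)` with `a`, `b`, `a + b` divisible by high powers of three primes
-/

set_option autoImplicit false

namespace Pool.Agent.X4.MK

open Finset Filter

/-- the properties of the pairs -/
structure Good (X θ1 θ2 : ℝ) (M1 M2 M3 m : ℕ) (a0 b0 : ℤ) (f : ℤ × ℤ) : Prop where
  apos : 0 < f.1
  bpos : 0 < f.2
  clow : X / 2 < (f.1 : ℝ) + f.2
  cle : (f.1 : ℝ) + f.2 ≤ X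
  lo : θ1 * ((f.1 : ℝ) + f.2) < f.1
  hi : (f.1 : ℝ) < θ2 * ((f.1 : ℝ) + f.2)
  cop : IsCoprime f.1 f.2
  inl : InL M1 M2 M3 f.1 f.2
  ma : (m : ℤ) ∣ f.1 - a0
  mb : (m : ℤ) ∣ f.2 - b0

/-- the last step -/
theorem core2 {p q r m : ℕ} (hp : p.Prime) (hq : q.Prime) (hr : r.Prime) (hpq : p ≠ q)
    (hpr : p ≠ r) (hqr : q ≠ r) (hpm : ¬ p ∣ m) (hqm : ¬ q ∣ m) (hrm : ¬ r ∣ m)
    (a0 b0 : ℤ) (hab : ∀ ℓ : ℕ, ℓ.Prime → ℓ ∣ m → ¬ ((ℓ : ℤ) ∣ a0 ∧ (ℓ : ℤ) ∣ b0))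
    {θ1 θ2 : ℝ} (h0 : 0 ≤ θ1) (h12 : θ1 < θ2) (h1 : θ2 ≤ 1) {δ η X : ℝ}
    (hX4 : 4 ≤ X) {e1 e2 e3 : ℕ} (he1 : 0 < e1) (he2 : 0 < e2) (he3 : 0 < e3)
    {a1 b1 a2 b2 : ℤ} (hB : Bas (p ^ e1) (q ^ e2) (r ^ e3) a1 b1 a2 b2)
    (HX1 : ∀ us ws U W : ℝ, X ^ η ≤ U → X ^ η ≤ W → |ws| + W ≤ X ^ (2 : ℝ) →
      ∀ u0 w0 : ℤ, ∃ E : Finset (ℤ × ℤ),
        (∀ e ∈ E, |(e.1 : ℝ) - us| ≤ U ∧ |(e.2 : ℝ) - ws| ≤ W ∧
          ((m * p * q * r : ℕ) : ℤ) ∣ e.1 - u0 ∧ ((m * p * q * r : ℕ) : ℤ) ∣ e.2 - w0 ∧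
          ∀ ℓ : ℕ, ℓ.Prime → ¬ ℓ ∣ m * p * q * r → ¬ ((ℓ : ℤ) ∣ e.1 ∧ (ℓ : ℤ) ∣ e.2)) ∧
        U * W * X ^ (-(δ / 2)) ≤ (E.card : ℝ))
    (hUη : X ^ η ≤ (θ2 - θ1) / 32 * X / (2 * ((max a1.natAbs b1.natAbs : ℕ) : ℝ)))
    (hWη : X ^ η ≤ (θ2 - θ1) / 32 * X * ((max a1.natAbs b1.natAbs : ℕ) : ℝ) /
      (4 * ((p ^ e1 * q ^ e2 * r ^ e3 : ℕ) : ℝ)))
    (g6 : 8 / ((θ2 - θ1) / 32) ^ 2 ≤ X ^ (δ / 2)) :
    ∃ F : Finset (ℤ × ℤ), (∀ f ∈ F, Good X θ1 θ2 (p ^ e1) (q ^ e2) (r ^ e3) m a0 b0 f) ∧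
      X ^ (2 - δ) / ((p ^ e1 * q ^ e2 * r ^ e3 : ℕ) : ℝ) ≤ (F.card : ℝ) := by
  have hX0 : 0 < X := by linarith
  have hPC := pc_of hp hq hr hpq hpr hqr e1 e2 e3
  generalize hM1d : p ^ e1 = M1 at *
  generalize hM2d : q ^ e2 = M2 at *
  generalize hM3d : r ^ e3 = M3 at *
  set ρ : ℝ := (θ2 - θ1) / 32 with hρ
  have hρ0 : 0 < ρ := by rw [hρ]; linarith
  have hρ1 : ρ ≤ 1 / 32 := by rw [hρ]; linarith
  have hM10 : (0 : ℝ) < M1 := by exact_mod_cast hPC.p1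
  have hM20 : (0 : ℝ) < M2 := by exact_mod_cast hPC.p2
  have hM30 : (0 : ℝ) < M3 := by exact_mod_cast hPC.p3
  have hdet := hB.det
  have hsqN := hB.sq
  have hprN := hB.pr
  have hcop1 : Nat.Coprime m (M1 * M2 * M3) := by
    rw [← hM1d, ← hM2d, ← hM3d]
    refine Nat.Coprime.mul_right (Nat.Coprime.mul_right ?_ ?_) ?_
    · exact Nat.Coprime.pow_right _ ((Nat.Prime.coprime_iff_not_dvd hp).2 hpm).symm
    · exact Nat.Coprime.pow_right _ ((Nat.Prime.coprime_iff_not_dvd hq).2 hqm).symm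
    · exact Nat.Coprime.pow_right _ ((Nat.Prime.coprime_iff_not_dvd hr).2 hrm).symm
  have hcls := by
    have hmp : Nat.Coprime m p := ((Nat.Prime.coprime_iff_not_dvd hp).2 hpm).symm
    have hmq : Nat.Coprime (m * p) q := Nat.Coprime.mul_left
      ((Nat.Prime.coprime_iff_not_dvd hq).2 hqm).symm ((Nat.coprime_primes hp hq).2 hpq)
    have hmr : Nat.Coprime (m * p * q) r := Nat.Coprime.mul_left (Nat.Coprime.mul_left
      ((Nat.Prime.coprime_iff_not_dvd hr).2 hrm).symm ((Nat.coprime_primes hp hr).2 hpr))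
      ((Nat.coprime_primes hq hr).2 hqr)
    exact (((cls_mod m hB hcop1 a0 b0).and hmp (cls_prime p hp b1 b2
      (not_both1 hp hPC (by rw [← hM1d]; exact dvd_pow_self p he1.ne') hB))).and hmq
      (cls_prime q hq a1 a2
      (not_both2 hq hPC (by rw [← hM2d]; exact dvd_pow_self q he2.ne') hB))).and hmr
      (cls_prime r hr a1 a2
      (not_both3 hr hPC (by rw [← hM3d]; exact dvd_pow_self r he3.ne') hB))
  obtain ⟨u0, w0, hcls⟩ := hcls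
  set D : ℝ := ((M1 * M2 * M3 : ℕ) : ℝ) with hD
  have hD0 : (0 : ℝ) < D := by rw [hD]; push_cast; positivity
  have hL1pos : 0 < max a1.natAbs b1.natAbs := by
    rcases hB.nz with h | h
    · exact lt_max_of_lt_left (Int.natAbs_pos.2 h)
    · exact lt_max_of_lt_right (Int.natAbs_pos.2 h)
  have hsq : ((max a1.natAbs b1.natAbs : ℕ) : ℝ) * ((max a1.natAbs b1.natAbs : ℕ) : ℝ) ≤ D := by
    rw [hD]; exact_mod_cast hsqN
  have hpr' : ((max a1.natAbs b1.natAbs : ℕ) : ℝ) * ((max a2.natAbs b2.natAbs : ℕ) : ℝ) ≤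
      2 * D := by
    rw [hD]; exact_mod_cast hprN
  have hA1 : |(a1 : ℝ)| ≤ ((max a1.natAbs b1.natAbs : ℕ) : ℝ) := natAbs_cast_le_max
  have hB1 : |(b1 : ℝ)| ≤ ((max a1.natAbs b1.natAbs : ℕ) : ℝ) := natAbs_cast_le_max'
  have hA2 : |(a2 : ℝ)| ≤ ((max a2.natAbs b2.natAbs : ℕ) : ℝ) := natAbs_cast_le_max
  have hB2 : |(b2 : ℝ)| ≤ ((max a2.natAbs b2.natAbs : ℕ) : ℝ) := natAbs_cast_le_max'
  have hL11 : (1 : ℝ) ≤ ((max a1.natAbs b1.natAbs : ℕ) : ℝ) := by exact_mod_cast hL1pos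
  generalize ((max a1.natAbs b1.natAbs : ℕ) : ℝ) = L1 at *
  generalize ((max a2.natAbs b2.natAbs : ℕ) : ℝ) = L2 at *
  have hL10 : (0 : ℝ) < L1 := by linarith
  have hL1D : L1 ≤ D := le_trans (le_mul_of_one_le_left hL10.le hL11) hsq
  -- the centre
  have hθ0 : 0 ≤ (θ1 + θ2) / 2 := by linarith
  have hθ1 : 0 ≤ 1 - (θ1 + θ2) / 2 := by linarith
  obtain ⟨as, has⟩ : ∃ as : ℝ, as = (θ1 + θ2) / 2 * (3 * X / 4) := ⟨_, rfl⟩
  obtain ⟨bs, hbs⟩ : ∃ bs : ℝ, bs = (1 - (θ1 + θ2) / 2) * (3 * X / 4) := ⟨_, rfl⟩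
  have has0 : 0 ≤ as := by rw [has]; positivity
  have hbs0 : 0 ≤ bs := by rw [hbs]; positivity
  have hsum : as + bs = 3 * X / 4 := by rw [has, hbs]; ring
  have has1 : as ≤ X := by linarith
  have hbs1 : bs ≤ X := by linarith
  obtain ⟨Δ, hΔ⟩ : ∃ Δ : ℝ, Δ = (a1 : ℝ) * b2 - a2 * b1 := ⟨_, rfl⟩
  have hΔ1 : |Δ| = D := by
    rcases hdet with h | h
    · have : Δ = D := by rw [hΔ, hD]; exact_mod_cast h
      rw [this, abs_of_nonneg hD0.le]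
    · have : Δ = -D := by rw [hΔ, hD]; exact_mod_cast h
      rw [this, abs_neg, abs_of_nonneg hD0.le]
  have hΔ0 : Δ ≠ 0 := by
    intro h
    rw [h, abs_zero] at hΔ1
    linarith
  have hsol1 : (as * b2 - a2 * bs) / Δ * a1 + (a1 * bs - as * b1) / Δ * a2 = as := by
    have : (as * b2 - a2 * bs) / Δ * a1 + (a1 * bs - as * b1) / Δ * a2 =
        as * ((a1 : ℝ) * b2 - a2 * b1) / Δ := by ring
    rw [this, ← hΔ]; field_simp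
  have hsol2 : (as * b2 - a2 * bs) / Δ * b1 + (a1 * bs - as * b1) / Δ * b2 = bs := by
    have : (as * b2 - a2 * bs) / Δ * b1 + (a1 * bs - as * b1) / Δ * b2 =
        bs * ((a1 : ℝ) * b2 - a2 * b1) / Δ := by ring
    rw [this, ← hΔ]; field_simp
  have hwsb : |(a1 * bs - as * b1) / Δ| + ρ * X * L1 / (4 * D) ≤ X ^ (2 : ℝ) := by
    have k1 := ws_le (x1 := (a1 : ℝ)) (y1 := (b1 : ℝ)) hD0 hΔ1 hL10 hL1D hX0 hA1 hB1 has0 has1
      hbs0 hbs1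
    have k2 : ρ * X * L1 / (4 * D) ≤ X := by
      rw [div_le_iff₀ (by positivity)]
      have k3 : ρ * X * L1 ≤ 1 * X * D := by gcongr; linarith
      have k4 : 0 ≤ X * D := by positivity
      linarith
    have k3 : X ^ (2 : ℝ) = X * X := by
      rw [show (2 : ℝ) = ((2 : ℕ) : ℝ) by norm_num, Real.rpow_natCast]; ring
    rw [k3]
    have k4 : 4 * X ≤ X * X := by gcongr
    linarith
  obtain ⟨E, hE, hEc⟩ := HX1 ((as * b2 - a2 * bs) / Δ) ((a1 * bs - as * b1) / Δ) _ _ hUη hWη hwsb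
    u0 w0
  let φ : ℤ × ℤ → ℤ × ℤ := fun e => (e.1 * a1 + e.2 * a2, e.1 * b1 + e.2 * b2)
  have hdetZ : a1 * b2 - a2 * b1 ≠ 0 := by
    intro h
    apply hΔ0
    rw [hΔ]
    exact_mod_cast h
  have hφ : Function.Injective φ := by
    rintro ⟨u, w⟩ ⟨u', w'⟩ h
    simp only [φ, Prod.mk.injEq] at h
    obtain ⟨k1, k2⟩ := h
    have k3 : (u - u') * (a1 * b2 - a2 * b1) = 0 := by linear_combination b2 * k1 - a2 * k2
    have k4 : (w - w') * (a1 * b2 - a2 * b1) = 0 := by linear_combination a1 * k2 - b1 * k1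
    rcases mul_eq_zero.1 k3 with k5 | k5
    · rcases mul_eq_zero.1 k4 with k6 | k6
      · rw [sub_eq_zero.1 k5, sub_eq_zero.1 k6]
      · exact absurd k6 hdetZ
    · exact absurd k5 hdetZ
  have hR : ρ * X / (2 * L1) * L1 + ρ * X * L1 / (4 * D) * L2 ≤ ρ * X := by
    have k1 : ρ * X / (2 * L1) * L1 = ρ * X / 2 := by field_simp
    have k2 : ρ * X * L1 / (4 * D) * L2 = ρ * X / (4 * D) * (L1 * L2) := by field_simp
    have k3 : ρ * X / (4 * D) * (L1 * L2) ≤ ρ * X / (4 * D) * (2 * D) := by gcongr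
    have k4 : ρ * X / (4 * D) * (2 * D) = ρ * X / 2 := by field_simp; norm_num
    linarith
  refine ⟨E.image φ, ?_, ?_⟩
  · intro f hf
    rw [mem_image] at hf
    obtain ⟨⟨u, w⟩, he, rfl⟩ := hf
    obtain ⟨hu, hw, hu0, hw0, hnc⟩ := hE _ he
    simp only at hu hw hu0 hw0 hnc
    obtain ⟨⟨⟨⟨hma, hmb⟩, hpb⟩, hqa⟩, hra⟩ := hcls u w hu0 hw0
    have hda := dist_le hsol1 hA1 hA2 hu hw hR
    have hdb := dist_le hsol2 hB1 hB2 hu hw hR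
    rw [has] at hda
    rw [hbs] at hdb
    obtain ⟨r1, r2, r3, r4, r5, r6⟩ := region hX0 h0 h12 h1 hda hdb
    have hcop := coprime_of hp hq hr hM1d.symm hM2d.symm hM3d.symm hB a0 b0 hab hnc hma hmb hpb
      hqa hra
    refine ⟨?_, ?_, ?_, ?_, ?_, ?_, hcop, hB.l1.comb hB.l2 u w, hma, hmb⟩
    · have : (0 : ℝ) < ((u * a1 + w * a2 : ℤ) : ℝ) := by push_cast; exact r5
      exact_mod_cast this
    · have : (0 : ℝ) < ((u * b1 + w * b2 : ℤ) : ℝ) := by push_cast; exact r6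
      exact_mod_cast this
    · simp only [φ]; push_cast; exact r1
    · simp only [φ]; push_cast; exact r2
    · simp only [φ]; push_cast; exact r3
    · simp only [φ]; push_cast; exact r4
  · rw [card_image_of_injective _ hφ]
    refine le_trans ?_ hEc
    have k1 : ρ * X / (2 * L1) * (ρ * X * L1 / (4 * D)) = ρ ^ 2 / 8 * X ^ 2 / D := by
      field_simp; ring
    rw [k1]
    have k2 : X ^ (2 - δ) ≤ ρ ^ 2 / 8 * X ^ 2 * X ^ (-(δ / 2)) := by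
      have k3 : X ^ (2 - δ) = X ^ 2 * X ^ (-(δ / 2)) * X ^ (-(δ / 2)) := by
        rw [← Real.rpow_natCast, ← Real.rpow_add hX0, ← Real.rpow_add hX0]
        congr 1
        push_cast
        ring
      have k4 : X ^ (-(δ / 2)) ≤ ρ ^ 2 / 8 := by
        rw [Real.rpow_neg hX0.le]
        have k5 : (8 / ρ ^ 2 : ℝ)⁻¹ = ρ ^ 2 / 8 := by field_simp
        rw [← k5]
        exact inv_anti₀ (by positivity) g6
      rw [k3]
      calc X ^ 2 * X ^ (-(δ / 2)) * X ^ (-(δ / 2)) ≤ X ^ 2 * X ^ (-(δ / 2)) * (ρ ^ 2 / 8) := by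
            gcongr
        _ = _ := by ring
    rw [div_mul_eq_mul_div]
    apply div_le_div_of_nonneg_right k2 hD0.le

theorem core (p q r m : ℕ) (hp : p.Prime) (hq : q.Prime) (hr : r.Prime) (hpq : p ≠ q)
    (hpr : p ≠ r) (hqr : q ≠ r) (hm : 0 < m) (hpm : ¬ p ∣ m) (hqm : ¬ q ∣ m) (hrm : ¬ r ∣ m)
    (a0 b0 : ℤ) (hab : ∀ ℓ : ℕ, ℓ.Prime → ℓ ∣ m → ¬ ((ℓ : ℤ) ∣ a0 ∧ (ℓ : ℤ) ∣ b0))
    (α β γ : ℝ) (hα : 0 < α) (hβ : 0 < β) (hγ : 0 < γ) (hs : 1 < α + β + γ)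
    (θ1 θ2 : ℝ) (h0 : 0 ≤ θ1) (h12 : θ1 < θ2) (h1 : θ2 ≤ 1) (δ : ℝ) (hδ : 0 < δ) :
    ∃ X0 : ℝ, ∀ X : ℝ, X0 ≤ X → ∀ e1 e2 e3 : ℕ, 0 < e1 → 0 < e2 → 0 < e3 →
      ((p ^ e1 : ℕ) : ℝ) ≤ (p : ℝ) ^ 2 * X ^ (1 - α) →
      ((q ^ e2 : ℕ) : ℝ) ≤ (q : ℝ) ^ 2 * X ^ (1 - β) →
      ((r ^ e3 : ℕ) : ℝ) ≤ (r : ℝ) ^ 2 * X ^ (1 - γ) →
      ∃ F : Finset (ℤ × ℤ), (∀ f ∈ F, Good X θ1 θ2 (p ^ e1) (q ^ e2) (r ^ e3) m a0 b0 f) ∧
      X ^ (2 - δ) / ((p ^ e1 * q ^ e2 * r ^ e3 : ℕ) : ℝ) ≤ (F.card : ℝ) := by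
  -- constants
  have hρ0 : 0 < (θ2 - θ1) / 32 := by linarith
  obtain ⟨τ, hτ⟩ : ∃ τ : ℝ, τ = 3 - (α + β + γ) := ⟨_, rfl⟩
  have hτ2 : τ < 2 := by rw [hτ]; linarith
  obtain ⟨ε, hε⟩ : ∃ ε : ℝ, ε = min 1 ((2 - τ) / 2) := ⟨_, rfl⟩
  have hε0 : 0 < ε := by rw [hε]; exact lt_min one_pos (by linarith)
  have hε1 : ε ≤ 1 := by rw [hε]; exact min_le_left _ _
  have hε2 : ε ≤ (2 - τ) / 2 := by rw [hε]; exact min_le_right _ _
  have hη1 : 0 < 1 - τ * ((1 + ε) / (2 + ε)) := by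
    rw [← mul_div_assoc, sub_pos, div_lt_one (by positivity)]
    nlinarith
  have hp0 : (0 : ℝ) < p := by exact_mod_cast hp.pos
  have hq0 : (0 : ℝ) < q := by exact_mod_cast hq.pos
  have hr0 : (0 : ℝ) < r := by exact_mod_cast hr.pos
  obtain ⟨K, hK⟩ : ∃ K : ℝ, K = (p : ℝ) ^ 2 * (q : ℝ) ^ 2 * (r : ℝ) ^ 2 := ⟨_, rfl⟩
  have hK0 : 0 < K := by rw [hK]; positivity
  obtain ⟨T, hT⟩ : ∃ T : Finset ℕ, T = {p, q, r} := ⟨_, rfl⟩
  have hTp : ∀ ℓ ∈ T, ℓ.Prime := by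
    intro ℓ hℓ
    simp only [hT, mem_insert, mem_singleton] at hℓ
    rcases hℓ with rfl | rfl | rfl <;> assumption
  obtain ⟨c, hc, Hlow⟩ := low T hTp ε hε0 hε1
  obtain ⟨η, hη0, hηa, hηb, hηc, hηd, hηe⟩ : ∃ η : ℝ, 0 < η ∧ η < 1 - τ * ((1 + ε) / (2 + ε)) ∧
      η < 1 - τ / 2 ∧ η < α ∧ η < β ∧ η < γ := by
    have hmin0 : 0 < min (1 - τ * ((1 + ε) / (2 + ε))) (min (1 - τ / 2) (min α (min β γ))) :=
      lt_min hη1 (lt_min (by linarith) (lt_min hα (lt_min hβ hγ)))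
    have i1 := min_le_left (1 - τ * ((1 + ε) / (2 + ε))) (min (1 - τ / 2) (min α (min β γ)))
    have i2 := min_le_right (1 - τ * ((1 + ε) / (2 + ε))) (min (1 - τ / 2) (min α (min β γ)))
    have i3 := min_le_left (1 - τ / 2) (min α (min β γ))
    have i4 := min_le_right (1 - τ / 2) (min α (min β γ))
    have i5 := min_le_left α (min β γ)
    have i6 := min_le_right α (min β γ)
    have i7 := min_le_left β γ
    have i8 := min_le_right β γ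
    refine ⟨min (1 - τ * ((1 + ε) / (2 + ε))) (min (1 - τ / 2) (min α (min β γ))) / 2,
      by positivity, ?_, ?_, ?_, ?_, ?_⟩ <;> linarith
  have hN0pos : 0 < m * p * q * r := by
    have := hp.pos
    have := hq.pos
    have := hr.pos
    positivity
  obtain ⟨X1, HX1⟩ := cnt (m * p * q * r) hN0pos 2 η (δ / 2) (by norm_num) hη0 (by positivity)
  have v1 := ev_pow (show 0 < (θ2 - θ1) / 32 / 4 *
    (c ^ (1 / (2 + ε)) * K ^ (-((1 + ε) / (2 + ε)))) by positivity) hηa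
  have v2 := ev_pow (show 0 < (θ2 - θ1) / 32 / 2 * K ^ (-(1 / 2) : ℝ) by positivity) hηb
  have v3 := ev_pow (show 0 < (θ2 - θ1) / 32 / (4 * (p : ℝ) ^ 2) by positivity) hηc
  have v4 := ev_pow (show 0 < (θ2 - θ1) / 32 / (4 * (q : ℝ) ^ 2) by positivity) hηd
  have v5 := ev_pow (show 0 < (θ2 - θ1) / 32 / (4 * (r : ℝ) ^ 2) by positivity) hηe
  have v6 : ∀ᶠ X : ℝ in atTop, 8 / ((θ2 - θ1) / 32) ^ 2 ≤ X ^ (δ / 2) :=
    (tendsto_rpow_atTop (by positivity)).eventually_ge_atTop _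
  obtain ⟨X2, HX2⟩ := eventually_atTop.1 (v1.and (v2.and (v3.and (v4.and (v5.and v6)))))
  refine ⟨max (max X1 X2) 4, ?_⟩
  intro X hX e1 e2 e3 he1 he2 he3 hM1 hM2 hM3
  have hX1 : X1 ≤ X := (le_max_left _ _).trans ((le_max_left _ _).trans hX)
  have hX2 : X2 ≤ X := (le_max_right _ _).trans ((le_max_left _ _).trans hX)
  have hX4 : 4 ≤ X := (le_max_right _ _).trans hX
  have hX0 : 0 < X := by linarith
  obtain ⟨g1, g2, g3, g4, g5, g6⟩ := HX2 X hX2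
  have hPC := pc_of hp hq hr hpq hpr hqr e1 e2 e3
  obtain ⟨a1, b1, a2, b2, hB⟩ := exists_bas hPC
  have hL1pos : 0 < max a1.natAbs b1.natAbs := by
    rcases hB.nz with h | h
    · exact lt_max_of_lt_left (Int.natAbs_pos.2 h)
    · exact lt_max_of_lt_right (Int.natAbs_pos.2 h)
  have hL10 : (0 : ℝ) < ((max a1.natAbs b1.natAbs : ℕ) : ℝ) := by exact_mod_cast hL1pos
  have hM10 : (0 : ℝ) < ((p ^ e1 : ℕ) : ℝ) := by exact_mod_cast hPC.p1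
  have hM20 : (0 : ℝ) < ((q ^ e2 : ℕ) : ℝ) := by exact_mod_cast hPC.p2
  have hM30 : (0 : ℝ) < ((r ^ e3 : ℕ) : ℝ) := by exact_mod_cast hPC.p3
  have hDe : ((p ^ e1 * q ^ e2 * r ^ e3 : ℕ) : ℝ) = ((p ^ e1 : ℕ) : ℝ) * ((q ^ e2 : ℕ) : ℝ) *
      ((r ^ e3 : ℕ) : ℝ) := by rw [Nat.cast_mul, Nat.cast_mul]
  have hD0 : (0 : ℝ) < ((p ^ e1 * q ^ e2 * r ^ e3 : ℕ) : ℝ) := by rw [hDe]; positivity
  have hDK : ((p ^ e1 * q ^ e2 * r ^ e3 : ℕ) : ℝ) ≤ K * X ^ τ := by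
    rw [hDe]
    calc _ ≤ ((p : ℝ) ^ 2 * X ^ (1 - α)) * ((q : ℝ) ^ 2 * X ^ (1 - β)) *
          ((r : ℝ) ^ 2 * X ^ (1 - γ)) := by gcongr
      _ = K * (X ^ (1 - α) * X ^ (1 - β) * X ^ (1 - γ)) := by rw [hK]; ring
      _ = K * X ^ τ := by
          rw [← Real.rpow_add hX0, ← Real.rpow_add hX0]
          congr 2
          rw [hτ]; ring
  have hsq : ((max a1.natAbs b1.natAbs : ℕ) : ℝ) * ((max a1.natAbs b1.natAbs : ℕ) : ℝ) ≤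
      ((p ^ e1 * q ^ e2 * r ^ e3 : ℕ) : ℝ) := by exact_mod_cast hB.sq
  have hlow := low2 (c := c) (ε := ε) hPC hB.l1 hB.nz (fun h => Hlow _ _ _ hPC
    (by
      rw [Nat.primeFactors_prime_pow he1.ne' hp, hT]
      intro ℓ hℓ; rw [mem_singleton] at hℓ; simp [hℓ])
    (by
      rw [Nat.primeFactors_prime_pow he2.ne' hq, hT]
      intro ℓ hℓ; rw [mem_singleton] at hℓ; simp [hℓ])
    (by
      rw [Nat.primeFactors_prime_pow he3.ne' hr, hT]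
      intro ℓ hℓ; rw [mem_singleton] at hℓ; simp [hℓ]) a1 b1 hB.l1 h)
  refine core2 (δ := δ) (η := η) hp hq hr hpq hpr hqr hpm hqm hrm a0 b0 hab h0 h12 h1 hX4 he1 he2
    he3 hB (HX1 X hX1) (g2.trans (rangeU hρ0 hK0 hX0 hL10 hsq hDK)) ?_ g6
  rcases hlow with h | h | h | h
  · exact g1.trans (rangeW hρ0 hK0 hX0 hL10 hD0 hc hε0 hDK h)
  · refine g5.trans (rangeW' hρ0 hX0 (mul_pos hM10 hM20) hM30 (by positivity) hDe hM3 ?_)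
    exact_mod_cast h
  · refine g4.trans (rangeW' hρ0 hX0 (mul_pos hM10 hM30) hM20 (by positivity)
      (by rw [hDe]; ring) hM2 ?_)
    exact_mod_cast h
  · refine g3.trans (rangeW' hρ0 hX0 (mul_pos hM20 hM30) hM10 (by positivity)
      (by rw [hDe]; ring) hM1 ?_)
    exact_mod_cast h

end Pool.Agent.X4.MK
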