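import Mathlib
import Pool.Agent.X4.MK.Core

/-!
# From the core theorem to abc triples with small radicals
-/

set_option autoImplicit false

namespace Pool.Agent.X4.MK

open Finset Filter

/-- the radical -/
def rd (m : ℕ) : ℕ := ∏ p ∈ m.primeFactors, p

theorem rd_mul_le {p e x : ℕ} (hp : p.Prime) (he : e ≠ 0) (hx : x ≠ 0) :
    rd (p ^ e * x) ≤ p * x := by
  have h1 : (p ^ e * x).primeFactors = (p * x).primeFactors := by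
    rw [Nat.primeFactors_mul (pow_ne_zero _ hp.ne_zero) hx, Nat.primeFactors_mul hp.ne_zero hx,
      Nat.primeFactors_pow _ he]
  unfold rd
  rw [h1]
  exact Nat.le_of_dvd (Nat.mul_pos hp.pos (Nat.pos_of_ne_zero hx)) (Nat.prod_primeFactors_dvd _)

theorem rd_le_rpow {p e n : ℕ} {X α : ℝ} (hp : p.Prime) (he : e ≠ 0) (hn : 0 < n)
    (hd : p ^ e ∣ n) (hnX : (n : ℝ) ≤ X) (hα : α ≤ 1)
    (h : (p : ℝ) * X ^ (1 - α) ≤ ((p ^ e : ℕ) : ℝ)) : (rd n : ℝ) ≤ (n : ℝ) ^ α := by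
  obtain ⟨x, rfl⟩ := hd
  have hx : x ≠ 0 := by rintro rfl; simp at hn
  have h1 : (rd (p ^ e * x) : ℝ) ≤ (p : ℝ) * x := by exact_mod_cast rd_mul_le hp he hx
  refine h1.trans ?_
  have hn0 : (0 : ℝ) < ((p ^ e * x : ℕ) : ℝ) := by exact_mod_cast hn
  have h2 : (((p ^ e * x : ℕ) : ℝ)) ^ (1 - α) ≤ X ^ (1 - α) :=
    Real.rpow_le_rpow hn0.le hnX (by linarith)
  have h3 : (p : ℝ) * (((p ^ e * x : ℕ) : ℝ)) ^ (1 - α) ≤ ((p ^ e : ℕ) : ℝ) :=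
    (mul_le_mul_of_nonneg_left h2 (Nat.cast_nonneg _)).trans h
  have h4 : 0 < (((p ^ e * x : ℕ) : ℝ)) ^ (1 - α) := by positivity
  have h5 : ((p : ℝ) * x) * (((p ^ e * x : ℕ) : ℝ)) ^ (1 - α) ≤
      (((p ^ e * x : ℕ) : ℝ)) ^ α * (((p ^ e * x : ℕ) : ℝ)) ^ (1 - α) := by
    rw [← Real.rpow_add hn0, show α + (1 - α) = 1 by ring, Real.rpow_one]
    calc ((p : ℝ) * x) * (((p ^ e * x : ℕ) : ℝ)) ^ (1 - α) =
        ((p : ℝ) * (((p ^ e * x : ℕ) : ℝ)) ^ (1 - α)) * x := by ring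
      _ ≤ ((p ^ e : ℕ) : ℝ) * x := mul_le_mul_of_nonneg_right h3 (Nat.cast_nonneg _)
      _ = ((p ^ e * x : ℕ) : ℝ) := by push_cast; ring
  exact le_of_mul_le_mul_right h5 h4

theorem exists_exp {p : ℕ} (hp : p.Prime) {Y : ℝ} (hY : 1 ≤ Y) : ∃ e : ℕ, 0 < e ∧
    (p : ℝ) * Y ≤ ((p ^ e : ℕ) : ℝ) ∧ ((p ^ e : ℕ) : ℝ) ≤ (p : ℝ) ^ 2 * Y := by
  have hp1 : (1 : ℝ) < p := by exact_mod_cast hp.one_lt
  obtain ⟨n, h1, h2⟩ := exists_nat_pow_near hY hp1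
  refine ⟨n + 2, by omega, ?_, ?_⟩
  · push_cast
    calc (p : ℝ) * Y ≤ p * (p : ℝ) ^ (n + 1) := by gcongr
      _ = (p : ℝ) ^ (n + 2) := by ring
  · push_cast
    calc (p : ℝ) ^ (n + 2) = (p : ℝ) ^ 2 * (p : ℝ) ^ n := by ring
      _ ≤ (p : ℝ) ^ 2 * Y := by gcongr

/-- three primes -/
theorem exists_primes (m : ℕ) (hm : 0 < m) : ∃ p q r : ℕ, p.Prime ∧ q.Prime ∧ r.Prime ∧ p ≠ q ∧
    p ≠ r ∧ q ≠ r ∧ ¬ p ∣ m ∧ ¬ q ∣ m ∧ ¬ r ∣ m := by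
  obtain ⟨p, hp1, hp⟩ := Nat.exists_infinite_primes (m + 1)
  obtain ⟨q, hq1, hq⟩ := Nat.exists_infinite_primes (p + 1)
  obtain ⟨r, hr1, hr⟩ := Nat.exists_infinite_primes (q + 1)
  refine ⟨p, q, r, hp, hq, hr, by omega, by omega, by omega, ?_, ?_, ?_⟩ <;>
  · intro h
    have := Nat.le_of_dvd hm h
    omega

/-- the map to natural numbers -/
def toT (f : ℤ × ℤ) : ℕ × ℕ × ℕ := (f.1.toNat, f.2.toNat, (f.1 + f.2).toNat)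

theorem toT_inj {f g : ℤ × ℤ} (hf1 : 0 < f.1) (hf2 : 0 < f.2) (hg1 : 0 < g.1) (hg2 : 0 < g.2)
    (h : toT f = toT g) : f = g := by
  simp only [toT, Prod.mk.injEq] at h
  ext <;> omega

end Pool.Agent.X4.MK
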