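import Mathlib
import Pool.Agent.X4.MK.Nat

/-!
# Members with large square factors are rare
-/

set_option autoImplicit false

namespace Pool.Agent.X4.MK

open Finset Filter

theorem det_ne {f g : ℤ × ℤ} (hf1 : 0 < f.1) (hf2 : 0 < f.2) (hg1 : 0 < g.1)
    (hf : IsCoprime f.1 f.2) (hg : IsCoprime g.1 g.2) (hne : f ≠ g) :
    f.1 * g.2 - g.1 * f.2 ≠ 0 := by
  intro h
  have h1 : f.1 * g.2 = g.1 * f.2 := by linarith
  have h2 : f.1 ∣ g.1 := hf.dvd_of_dvd_mul_right (Dvd.intro _ h1)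
  have h3 : g.1 ∣ f.1 := hg.dvd_of_dvd_mul_right (Dvd.intro _ h1.symm)
  have h4 : f.1 = g.1 := Int.dvd_antisymm hf1.le hg1.le h2 h3
  apply hne
  have h5 : g.2 = f.2 := by
    rw [← h4] at h1
    exact mul_left_cancel₀ hf1.ne' h1
  exact Prod.ext h4 h5.symm

/-- coprime pairs whose determinants are divisible by `D` are few -/
theorem spacing {G : Finset (ℤ × ℤ)} {X : ℝ} {D : ℕ} (hD : 0 < D) (hX : 0 < X)
    (h1 : ∀ f ∈ G, 0 < f.1 ∧ 0 < f.2 ∧ (f.1 : ℝ) + f.2 ≤ X ∧ IsCoprime f.1 f.2)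
    (h2 : ∀ f ∈ G, ∀ g ∈ G, (D : ℤ) ∣ f.1 * g.2 - g.1 * f.2) :
    (G.card : ℝ) ≤ X ^ 2 / D + 1 := by
  have hD0 : (0 : ℝ) < D := by exact_mod_cast hD
  set s : ℝ := X ^ 2 / D with hs
  have hs0 : 0 < s := by positivity
  let ψ : ℤ × ℤ → ℕ := fun f => ⌊(f.1 : ℝ) / ((f.1 : ℝ) + f.2) * s⌋₊
  have hinj : Set.InjOn ψ (G : Set (ℤ × ℤ)) := by
    intro f hf g hg hfg
    by_contra hne
    obtain ⟨a1, a2, a3, a4⟩ := h1 f hf
    obtain ⟨b1, b2, b3, b4⟩ := h1 g hg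
    have hdet := det_ne a1 a2 b1 a4 b4 hne
    have hge : (D : ℝ) ≤ |((f.1 * g.2 - g.1 * f.2 : ℤ) : ℝ)| := by
      have := Int.le_of_dvd (abs_pos.2 hdet) ((dvd_abs _ _).2 (h2 f hf g hg))
      exact_mod_cast this
    have c1 : (0 : ℝ) < (f.1 : ℝ) + f.2 := by
      have : (0 : ℤ) < f.1 + f.2 := by omega
      exact_mod_cast this
    have c2 : (0 : ℝ) < (g.1 : ℝ) + g.2 := by
      have : (0 : ℤ) < g.1 + g.2 := by omega
      exact_mod_cast this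
    have a1' : (0 : ℝ) < f.1 := by exact_mod_cast a1
    have b1' : (0 : ℝ) < g.1 := by exact_mod_cast b1
    set x : ℝ := (f.1 : ℝ) / ((f.1 : ℝ) + f.2) * s with hx
    set y : ℝ := (g.1 : ℝ) / ((g.1 : ℝ) + g.2) * s with hy
    have hx0 : 0 ≤ x := by positivity
    have hy0 : 0 ≤ y := by positivity
    have hxy : |x - y| < 1 := by
      have e : ⌊x⌋₊ = ⌊y⌋₊ := hfg
      have k1 := Nat.floor_le hx0
      have k2 := Nat.floor_le hy0
      have k3 := Nat.lt_floor_add_one x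
      have k4 := Nat.lt_floor_add_one y
      rw [e] at k1 k3
      rw [abs_lt]
      constructor <;> linarith
    have hd : x - y = ((f.1 * g.2 - g.1 * f.2 : ℤ) : ℝ) /
        (((f.1 : ℝ) + f.2) * ((g.1 : ℝ) + g.2)) * s := by
      rw [hx, hy]
      push_cast
      field_simp
      ring
    have hge2 : 1 ≤ |x - y| := by
      rw [hd, abs_mul, abs_div, abs_of_pos hs0, abs_of_pos (mul_pos c1 c2)]
      have k5 : ((f.1 : ℝ) + f.2) * ((g.1 : ℝ) + g.2) ≤ X ^ 2 := by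
        rw [sq]
        exact mul_le_mul a3 b3 c2.le hX.le
      calc (1 : ℝ) = D / X ^ 2 * s := by rw [hs]; field_simp
        _ ≤ |((f.1 * g.2 - g.1 * f.2 : ℤ) : ℝ)| / (((f.1 : ℝ) + f.2) * ((g.1 : ℝ) + g.2)) * s := by
            gcongr
    linarith
  have hsub : G.image ψ ⊆ range (⌊s⌋₊ + 1) := by
    intro k hk
    rw [mem_image] at hk
    obtain ⟨f, hf, rfl⟩ := hk
    obtain ⟨a1, a2, a3, a4⟩ := h1 f hf
    rw [mem_range]
    have a1' : (0 : ℝ) < f.1 := by exact_mod_cast a1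
    have a2' : (0 : ℝ) < f.2 := by exact_mod_cast a2
    have k1 : (f.1 : ℝ) / ((f.1 : ℝ) + f.2) * s ≤ s := by
      apply mul_le_of_le_one_left hs0.le
      rw [div_le_one (by positivity)]
      linarith
    have k2 := Nat.floor_le_floor k1
    exact Nat.lt_succ_of_le k2
  have h3 : G.card ≤ ⌊s⌋₊ + 1 := by
    rw [← card_image_of_injOn hinj]
    exact (card_le_card hsub).trans (by rw [card_range])
  have h4 : (⌊s⌋₊ : ℝ) ≤ s := Nat.floor_le hs0.le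
  have h5 : (G.card : ℝ) ≤ (⌊s⌋₊ : ℝ) + 1 := by exact_mod_cast h3
  linarith

theorem pc_of_pair {N1 N2 N3 : ℕ} (h1 : 0 < N1) (h2 : 0 < N2) (h3 : 0 < N3) {f : ℤ × ℤ}
    (hc : IsCoprime f.1 f.2) (hl : InL N1 N2 N3 f.1 f.2) : PC N1 N2 N3 := by
  have c13 : IsCoprime f.1 (f.1 + f.2) := by
    have := hc.add_mul_left_right 1
    rwa [mul_one, add_comm] at this
  have c23 : IsCoprime f.2 (f.1 + f.2) := by
    have := hc.symm.add_mul_left_right 1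
    rwa [mul_one] at this
  refine ⟨h1, h2, h3, ?_, ?_, ?_⟩
  · exact Nat.isCoprime_iff_coprime.1 ((hc.of_isCoprime_of_dvd_left hl.h1).of_isCoprime_of_dvd_right
      hl.h2)
  · exact Nat.isCoprime_iff_coprime.1
      ((c13.of_isCoprime_of_dvd_left hl.h1).of_isCoprime_of_dvd_right hl.h3)
  · exact Nat.isCoprime_iff_coprime.1
      ((c23.of_isCoprime_of_dvd_left hl.h2).of_isCoprime_of_dvd_right hl.h3)

/-- the pairs of `G` in the lattice -/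
theorem card_inL {G : Finset (ℤ × ℤ)} {X : ℝ} {N1 N2 N3 : ℕ} (p1 : 0 < N1) (p2 : 0 < N2)
    (p3 : 0 < N3) (hX : 0 < X)
    (h1 : ∀ f ∈ G, 0 < f.1 ∧ 0 < f.2 ∧ (f.1 : ℝ) + f.2 ≤ X ∧ IsCoprime f.1 f.2)
    (h2 : ∀ f ∈ G, InL N1 N2 N3 f.1 f.2) :
    (G.card : ℝ) ≤ X ^ 2 / ((N1 * N2 * N3 : ℕ) : ℝ) + 1 := by
  rcases G.eq_empty_or_nonempty with rfl | ⟨f0, hf0⟩
  · simp only [card_empty, Nat.cast_zero]; positivity
  · have hPC := pc_of_pair p1 p2 p3 (h1 f0 hf0).2.2.2 (h2 f0 hf0)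
    refine spacing (by positivity) hX h1 fun f hf g hg => ?_
    exact det_dvd hPC (h2 f hf) (h2 g hg)

/-- the sum over the squares -/
theorem bad_sum {G : Finset (ℤ × ℤ)} {X D : ℝ} {E0 E : ℕ} (hE0 : 0 < E0) (hX : 0 < X) (hD : 0 < D)
    (B : ℕ → Finset (ℤ × ℤ)) (hB : ∀ e, 0 < e → ((B e).card : ℝ) ≤ X ^ 2 / (D * e ^ 2) + 1)
    (hG : ∀ f ∈ G, ∃ e, E0 ≤ e ∧ e ≤ E ∧ f ∈ B e) :
    (G.card : ℝ) ≤ 2 * X ^ 2 / (D * E0) + E := by
  classical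
  have h1 : G ⊆ (Ioo (E0 - 1) (E + 1)).biUnion B := by
    intro f hf
    obtain ⟨e, h2, h3, h4⟩ := hG f hf
    rw [mem_biUnion]
    exact ⟨e, mem_Ioo.2 ⟨by omega, by omega⟩, h4⟩
  have h2 := Nat.cast_le (α := ℝ).2 ((card_le_card h1).trans card_biUnion_le)
  rw [Nat.cast_sum] at h2
  refine h2.trans ?_
  have h3 : ∑ e ∈ Ioo (E0 - 1) (E + 1), ((B e).card : ℝ) ≤
      ∑ e ∈ Ioo (E0 - 1) (E + 1), (X ^ 2 / D * ((e : ℝ) ^ 2)⁻¹ + 1) := by
    refine Finset.sum_le_sum fun e he => ?_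
    rw [mem_Ioo] at he
    refine (hB e (by omega)).trans (le_of_eq ?_)
    have : (e : ℝ) ≠ 0 := by
      have : 0 < e := by omega
      positivity
    field_simp
  refine h3.trans ?_
  rw [sum_add_distrib, ← mul_sum, sum_const, nsmul_eq_mul, mul_one]
  have h4 := sum_Ioo_inv_sq_le (α := ℝ) (E0 - 1) (E + 1)
  have h5 : (((E0 - 1 : ℕ) : ℝ) + 1) = E0 := by
    have : E0 - 1 + 1 = E0 := by omega
    exact_mod_cast this
  rw [h5] at h4
  have h6 : ((Ioo (E0 - 1) (E + 1)).card : ℝ) ≤ E := by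
    rw [Nat.card_Ioo]
    exact_mod_cast (by omega : E + 1 - (E0 - 1) - 1 ≤ E)
  have h7 : X ^ 2 / D * ∑ e ∈ Ioo (E0 - 1) (E + 1), ((e : ℝ) ^ 2)⁻¹ ≤ X ^ 2 / D * (2 / E0) :=
    mul_le_mul_of_nonneg_left h4 (by positivity)
  have h8 : X ^ 2 / D * (2 / E0) = 2 * X ^ 2 / (D * E0) := by field_simp
  linarith

/-- without large squares the radical is large -/
theorem le_rd {n M E0 : ℕ} (hn : 0 < n) (hM : M ∣ n)
    (h : ∀ e, E0 ≤ e → ¬ M * e ^ 2 ∣ n) : n ≤ M * E0 ^ 2 * rd n := by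
  obtain ⟨x, rfl⟩ := hM
  obtain ⟨k, b, hbk, hk⟩ := Nat.sq_mul_squarefree x
  have hb : b < E0 := by
    by_contra hcon
    push Not at hcon
    exact h b hcon (Nat.mul_dvd_mul_left _ (Dvd.intro _ hbk))
  have hx : x ≠ 0 := by rintro rfl; simp at hn
  have hM0 : M ≠ 0 := by rintro rfl; simp at hn
  have hk1 : k ≤ rd (M * x) := by
    unfold rd
    rw [← Nat.prod_primeFactors_of_squarefree hk]
    apply Nat.le_of_dvd (Finset.prod_pos fun p hp => (Nat.prime_of_mem_primeFactors hp).pos)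
    rw [Nat.prod_primeFactors_of_squarefree hk]
    conv_lhs => rw [← Nat.prod_primeFactors_of_squarefree hk]
    apply Finset.prod_dvd_prod_of_subset
    apply Nat.primeFactors_mono _ hn.ne'
    exact (Dvd.intro_left _ hbk).trans (Dvd.intro_left _ rfl)
  calc M * x = M * (b ^ 2 * k) := by rw [hbk]
    _ ≤ M * (E0 ^ 2 * rd (M * x)) := by gcongr
    _ = M * E0 ^ 2 * rd (M * x) := by ring

/-- the same with powers of `X` -/
theorem rpow_le_rd {n M E0 : ℕ} {X α δ κ c : ℝ} (hn : 0 < n) (hM : M ∣ n)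
    (h : ∀ e, E0 ≤ e → ¬ M * e ^ 2 ∣ n) (hX : 1 ≤ X) (hc : 0 < c) (hκ : 0 < κ)
    (hM2 : (M : ℝ) ≤ c * X ^ (1 - α)) (hE : (E0 : ℝ) ≤ 2 * X ^ (δ / 4))
    (hκn : κ * X ≤ n) (hδ : 0 < δ) (hα : α ≤ 1)
    (hbig : 4 * c / κ ^ (1 - α + δ) ≤ X ^ (δ / 2)) : (n : ℝ) ^ (α - δ) ≤ rd n := by
  have hX0 : 0 < X := by linarith
  have hn0 : (0 : ℝ) < n := by exact_mod_cast hn
  have h1 : (n : ℝ) ≤ M * E0 ^ 2 * rd n := by exact_mod_cast le_rd hn hM h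
  have h2 : (n : ℝ) ≤ (c * X ^ (1 - α)) * (2 * X ^ (δ / 4)) ^ 2 * rd n := by
    refine h1.trans ?_
    gcongr
  have h3 : (c * X ^ (1 - α)) * (2 * X ^ (δ / 4)) ^ 2 = 4 * c * X ^ (1 - α + δ / 2) := by
    rw [mul_pow, ← Real.rpow_natCast (X ^ (δ / 4)), ← Real.rpow_mul hX0.le]
    have e : X ^ (1 - α + δ / 2) = X ^ (1 - α) * X ^ (δ / 4 * ((2 : ℕ) : ℝ)) := by
      rw [← Real.rpow_add hX0]; congr 1; push_cast; ring
    rw [e]; ring
  rw [h3] at h2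
  have h4 : 4 * c * X ^ (1 - α + δ / 2) ≤ (n : ℝ) ^ (1 - α + δ) := by
    have h5 : (κ * X) ^ (1 - α + δ) ≤ (n : ℝ) ^ (1 - α + δ) :=
      Real.rpow_le_rpow (by positivity) hκn (by linarith)
    refine le_trans ?_ h5
    rw [Real.mul_rpow hκ.le hX0.le]
    have h6 : X ^ (1 - α + δ) = X ^ (1 - α + δ / 2) * X ^ (δ / 2) := by
      rw [← Real.rpow_add hX0]; congr 1; ring
    rw [h6]
    rw [div_le_iff₀ (by positivity)] at hbig
    calc 4 * c * X ^ (1 - α + δ / 2) ≤ (X ^ (δ / 2) * κ ^ (1 - α + δ)) * X ^ (1 - α + δ / 2) := by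
          gcongr
      _ = _ := by ring
  have h7 : (n : ℝ) ≤ (n : ℝ) ^ (1 - α + δ) * rd n :=
    h2.trans (mul_le_mul_of_nonneg_right h4 (Nat.cast_nonneg _))
  have h8 : (n : ℝ) = (n : ℝ) ^ (1 - α + δ) * (n : ℝ) ^ (α - δ) := by
    rw [← Real.rpow_add hn0, show 1 - α + δ + (α - δ) = 1 by ring, Real.rpow_one]
  have h9 : (n : ℝ) ^ (1 - α + δ) * (n : ℝ) ^ (α - δ) ≤ (n : ℝ) ^ (1 - α + δ) * rd n := by
    rw [← h8]; exact h7
  exact le_of_mul_le_mul_left h9 (by positivity)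

end Pool.Agent.X4.MK
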