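import Mathlib
import Pool.Agent.X4.MK.Lim

/-!
# Many abc triples with prescribed sizes of the radicals of the members
-/

set_option autoImplicit false

namespace Pool.Agent.X4.MK

open Finset Filter

open Classical in
theorem bad_one {F : Finset (ℤ × ℤ)} {X D : ℝ} {N E0 : ℕ} (proj : ℤ × ℤ → ℤ) (hN : 0 < N)
    (hE0 : 0 < E0) (hX : 0 < X) (hD : 0 < D)
    (hp : ∀ f ∈ F, 0 < proj f ∧ (proj f : ℝ) ≤ X)
    (hc : ∀ e : ℕ, 0 < e → ((F.filter fun f => ((N * e ^ 2 : ℕ) : ℤ) ∣ proj f).card : ℝ) ≤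
      X ^ 2 / (D * e ^ 2) + 1) :
    ((F.filter fun f => ∃ e : ℕ, E0 ≤ e ∧ ((N * e ^ 2 : ℕ) : ℤ) ∣ proj f).card : ℝ) ≤
      2 * X ^ 2 / (D * E0) + Real.sqrt (X / N) := by
  have hN0 : (0 : ℝ) < N := by exact_mod_cast hN
  have h := bad_sum (G := F.filter fun f => ∃ e : ℕ, E0 ≤ e ∧ ((N * e ^ 2 : ℕ) : ℤ) ∣ proj f)
    (E := ⌊Real.sqrt (X / N)⌋₊) hE0 hX hD
    (fun e => F.filter fun f => ((N * e ^ 2 : ℕ) : ℤ) ∣ proj f) hc (by
      intro f hf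
      rw [mem_filter] at hf
      obtain ⟨hf, e, he, hd⟩ := hf
      refine ⟨e, he, ?_, by rw [mem_filter]; exact ⟨hf, hd⟩⟩
      obtain ⟨k1, k2⟩ := hp f hf
      have k3 : ((N * e ^ 2 : ℕ) : ℤ) ≤ proj f := Int.le_of_dvd k1 hd
      have k4 : ((N * e ^ 2 : ℕ) : ℝ) ≤ (proj f : ℝ) := by exact_mod_cast k3
      push_cast at k4
      apply Nat.le_floor
      apply Real.le_sqrt_of_sq_le
      rw [le_div_iff₀ hN0]
      linarith)
  have h2 : ((⌊Real.sqrt (X / N)⌋₊ : ℕ) : ℝ) ≤ Real.sqrt (X / N) := Nat.floor_le (Real.sqrt_nonneg _)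
  linarith

theorem sqrt_le {X α : ℝ} {N : ℕ} (hX : 0 < X) (hN : 0 < N) (h : X ^ (1 - α) ≤ (N : ℝ)) :
    Real.sqrt (X / N) ≤ X ^ (α / 2) := by
  have hN0 : (0 : ℝ) < N := by exact_mod_cast hN
  have h1 : X / N ≤ X ^ α := by
    rw [div_le_iff₀ hN0]
    calc X = X ^ α * X ^ (1 - α) := by
          rw [← Real.rpow_add hX, show α + (1 - α) = 1 by ring, Real.rpow_one]
      _ ≤ X ^ α * N := by gcongr
  calc Real.sqrt (X / N) ≤ Real.sqrt (X ^ α) := Real.sqrt_le_sqrt h1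
    _ = X ^ (α / 2) := by
        rw [Real.sqrt_eq_rpow, ← Real.rpow_mul hX.le]
        congr 1; ring

/-- the properties of the final pairs -/
structure Fine (X θ1 θ2 α β γ δ : ℝ) (m a0 b0 : ℕ) (a b : ℕ) : Prop where
  apos : 0 < a
  bpos : 0 < b
  cop : Nat.Coprime a b
  clow : X / 2 < ((a + b : ℕ) : ℝ)
  cle : ((a + b : ℕ) : ℝ) ≤ X
  lo : θ1 * ((a + b : ℕ) : ℝ) < a
  hi : (a : ℝ) < θ2 * ((a + b : ℕ) : ℝ)
  ma : a ≡ a0 [MOD m]
  mb : b ≡ b0 [MOD m]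
  ra1 : (a : ℝ) ^ (α - δ) ≤ rd a
  ra2 : (rd a : ℝ) ≤ (a : ℝ) ^ α
  rb1 : (b : ℝ) ^ (β - δ) ≤ rd b
  rb2 : (rd b : ℝ) ≤ (b : ℝ) ^ β
  rc1 : ((a + b : ℕ) : ℝ) ^ (γ - δ) ≤ rd (a + b)
  rc2 : (rd (a + b) : ℝ) ≤ ((a + b : ℕ) : ℝ) ^ γ

theorem lim_main (α β γ : ℝ) (hα : 0 < α) (hα1 : α ≤ 1) (hβ : 0 < β) (hβ1 : β ≤ 1) (hγ : 0 < γ)
    (hγ1 : γ ≤ 1) (h3a : 1 + α / 2 < α + β + γ) (h3b : 1 + β / 2 < α + β + γ)
    (h3c : 1 + γ / 2 < α + β + γ) (θ₁ θ₂ : ℝ) (h0 : 0 ≤ θ₁) (h12 : θ₁ < θ₂) (h1 : θ₂ ≤ 1)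
    (m a₀ b₀ : ℕ) (hm : 0 < m) (hab : Nat.Coprime (Nat.gcd a₀ b₀) m) (δ : ℝ) (hδ : 0 < δ) :
    ∃ X₀ : ℝ, ∀ X : ℝ, X₀ ≤ X → ∃ F : Finset (ℕ × ℕ),
      (∀ f ∈ F, Fine X θ₁ θ₂ α β γ δ m a₀ b₀ f.1 f.2) ∧
      X ^ (α + β + γ - 1 - δ) ≤ (F.card : ℝ) := by
  classical
  have hs : 1 < α + β + γ := by linarith
  obtain ⟨p, q, r, hp, hq, hr, hpq, hpr, hqr, hpm, hqm, hrm⟩ := exists_primes m hm
  have hab' : ∀ ℓ : ℕ, ℓ.Prime → ℓ ∣ m → ¬ ((ℓ : ℤ) ∣ (a₀ : ℤ) ∧ (ℓ : ℤ) ∣ (b₀ : ℤ)) := by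
    rintro ℓ hℓ h2 ⟨h3, h4⟩
    have h5 : ℓ ∣ Nat.gcd a₀ b₀ :=
      Nat.dvd_gcd (Int.natCast_dvd_natCast.1 h3) (Int.natCast_dvd_natCast.1 h4)
    exact Nat.not_coprime_of_dvd_of_dvd hℓ.one_lt h5 h2 hab
  obtain ⟨δ1, d0, d1, d2, d3, d4⟩ : ∃ δ1 : ℝ, 0 < δ1 ∧ δ1 < δ / 4 ∧ α / 2 < α + β + γ - 1 - δ1 ∧
      β / 2 < α + β + γ - 1 - δ1 ∧ γ / 2 < α + β + γ - 1 - δ1 := by
    have hm0 : 0 < min (δ / 4) (min (α + β + γ - 1 - α / 2)
      (min (α + β + γ - 1 - β / 2) (α + β + γ - 1 - γ / 2))) :=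
      lt_min (by positivity) (lt_min (by linarith) (lt_min (by linarith) (by linarith)))
    have i1 := min_le_left (δ / 4) (min (α + β + γ - 1 - α / 2)
      (min (α + β + γ - 1 - β / 2) (α + β + γ - 1 - γ / 2)))
    have i2 := min_le_right (δ / 4) (min (α + β + γ - 1 - α / 2)
      (min (α + β + γ - 1 - β / 2) (α + β + γ - 1 - γ / 2)))
    have i3 := min_le_left (α + β + γ - 1 - α / 2)
      (min (α + β + γ - 1 - β / 2) (α + β + γ - 1 - γ / 2))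
    have i4 := min_le_right (α + β + γ - 1 - α / 2)
      (min (α + β + γ - 1 - β / 2) (α + β + γ - 1 - γ / 2))
    have i5 := min_le_left (α + β + γ - 1 - β / 2) (α + β + γ - 1 - γ / 2)
    have i6 := min_le_right (α + β + γ - 1 - β / 2) (α + β + γ - 1 - γ / 2)
    refine ⟨min (δ / 4) (min (α + β + γ - 1 - α / 2)
      (min (α + β + γ - 1 - β / 2) (α + β + γ - 1 - γ / 2))) / 2, by positivity, ?_, ?_, ?_, ?_⟩ <;>
      linarith
  obtain ⟨X1, HX1⟩ := core p q r m hp hq hr hpq hpr hqr hm hpm hqm hrm a₀ b₀ hab' α β γ hα hβ hγ hs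
    ((2 * θ₁ + θ₂) / 3) ((θ₁ + 2 * θ₂) / 3) (by linarith) (by linarith) (by linarith) δ1 d0
  have hp0 : (0 : ℝ) < p := by exact_mod_cast hp.pos
  have hq0 : (0 : ℝ) < q := by exact_mod_cast hq.pos
  have hr0 : (0 : ℝ) < r := by exact_mod_cast hr.pos
  have hp1 : (1 : ℝ) ≤ p := by exact_mod_cast hp.one_lt.le
  have hq1 : (1 : ℝ) ≤ q := by exact_mod_cast hq.one_lt.le
  have hr1 : (1 : ℝ) ≤ r := by exact_mod_cast hr.one_lt.le
  obtain ⟨K, hK⟩ : ∃ K : ℝ, K = (p : ℝ) ^ 2 * (q : ℝ) ^ 2 * (r : ℝ) ^ 2 := ⟨_, rfl⟩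
  have hK0 : 0 < K := by rw [hK]; positivity
  obtain ⟨κ, hκ⟩ : ∃ κ : ℝ, κ = (θ₂ - θ₁) / 6 := ⟨_, rfl⟩
  have hκ0 : 0 < κ := by rw [hκ]; linarith
  have hκ1 : κ ≤ 1 / 6 := by rw [hκ]; linarith
  have v1 := ev_pow (show 0 < 1 / (12 * K) by positivity) d2
  have v2 := ev_pow (show 0 < 1 / (12 * K) by positivity) d3
  have v3 := ev_pow (show 0 < 1 / (12 * K) by positivity) d4
  have v4 := ev_pow (show 0 < 1 / (2 * K) by positivity)
    (show α + β + γ - 1 - δ < α + β + γ - 1 - δ1 by linarith)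
  have v5 := ev_pow (show (0 : ℝ) < 1 / 24 by norm_num) (show 2 - δ / 4 < 2 - δ1 by linarith)
  have w1 : ∀ᶠ X : ℝ in atTop, 4 * (p : ℝ) ^ 2 / κ ^ (1 - α + δ) ≤ X ^ (δ / 2) :=
    (tendsto_rpow_atTop (by positivity)).eventually_ge_atTop _
  have w2 : ∀ᶠ X : ℝ in atTop, 4 * (q : ℝ) ^ 2 / κ ^ (1 - β + δ) ≤ X ^ (δ / 2) :=
    (tendsto_rpow_atTop (by positivity)).eventually_ge_atTop _
  have w3 : ∀ᶠ X : ℝ in atTop, 4 * (r : ℝ) ^ 2 / κ ^ (1 - γ + δ) ≤ X ^ (δ / 2) :=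
    (tendsto_rpow_atTop (by positivity)).eventually_ge_atTop _
  obtain ⟨X2, HX2⟩ := eventually_atTop.1 (v1.and (v2.and (v3.and (v4.and (v5.and
    (w1.and (w2.and w3)))))))
  refine ⟨max (max X1 X2) 1, fun X hX => ?_⟩
  have hX1 : X1 ≤ X := (le_max_left _ _).trans ((le_max_left _ _).trans hX)
  have hX2 : X2 ≤ X := (le_max_right _ _).trans ((le_max_left _ _).trans hX)
  have hX3 : 1 ≤ X := (le_max_right _ _).trans hX
  have hX0 : 0 < X := by linarith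
  obtain ⟨g1, g2, g3, g4, g5, g6, g7, g8⟩ := HX2 X hX2
  obtain ⟨e1, he1, i1, j1⟩ := exists_exp hp (Real.one_le_rpow hX3 (show 0 ≤ 1 - α by linarith))
  obtain ⟨e2, he2, i2, j2⟩ := exists_exp hq (Real.one_le_rpow hX3 (show 0 ≤ 1 - β by linarith))
  obtain ⟨e3, he3, i3, j3⟩ := exists_exp hr (Real.one_le_rpow hX3 (show 0 ≤ 1 - γ by linarith))
  obtain ⟨F, hF, hFc⟩ := HX1 X hX1 e1 e2 e3 he1 he2 he3 j1 j2 j3
  have k1 : X ^ (1 - α) ≤ ((p ^ e1 : ℕ) : ℝ) :=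
    (le_mul_of_one_le_left (by positivity) hp1).trans i1
  have k2 : X ^ (1 - β) ≤ ((q ^ e2 : ℕ) : ℝ) :=
    (le_mul_of_one_le_left (by positivity) hq1).trans i2
  have k3 : X ^ (1 - γ) ≤ ((r ^ e3 : ℕ) : ℝ) :=
    (le_mul_of_one_le_left (by positivity) hr1).trans i3
  have hN1 : 0 < p ^ e1 := pow_pos hp.pos _
  have hN2 : 0 < q ^ e2 := pow_pos hq.pos _
  have hN3 : 0 < r ^ e3 := pow_pos hr.pos _
  have s1 := sqrt_le hX0 hN1 k1
  have s2 := sqrt_le hX0 hN2 k2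
  have s3 := sqrt_le hX0 hN3 k3
  have hDe : ((p ^ e1 * q ^ e2 * r ^ e3 : ℕ) : ℝ) = ((p ^ e1 : ℕ) : ℝ) * ((q ^ e2 : ℕ) : ℝ) *
      ((r ^ e3 : ℕ) : ℝ) := by rw [Nat.cast_mul, Nat.cast_mul]
  have hDK : ((p ^ e1 * q ^ e2 * r ^ e3 : ℕ) : ℝ) ≤ K * X ^ (3 - (α + β + γ)) := by
    rw [hDe]
    calc _ ≤ ((p : ℝ) ^ 2 * X ^ (1 - α)) * ((q : ℝ) ^ 2 * X ^ (1 - β)) *
          ((r : ℝ) ^ 2 * X ^ (1 - γ)) := by gcongr
      _ = K * (X ^ (1 - α) * X ^ (1 - β) * X ^ (1 - γ)) := by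
          rw [hK]; ring
      _ = _ := by
          rw [← Real.rpow_add hX0, ← Real.rpow_add hX0]
          congr 2
          ring
  generalize hM1 : p ^ e1 = M1 at *
  generalize hM2 : q ^ e2 = M2 at *
  generalize hM3 : r ^ e3 = M3 at *
  obtain ⟨D, hD⟩ : ∃ D : ℝ, D = ((M1 * M2 * M3 : ℕ) : ℝ) := ⟨_, rfl⟩
  rw [← hD] at hFc hDK hDe
  have hD0 : 0 < D := by
    rw [hD]
    exact_mod_cast Nat.mul_pos (Nat.mul_pos hN1 hN2) hN3
  -- the bound for squares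
  obtain ⟨E0, hE0⟩ : ∃ E0 : ℕ, E0 = ⌈X ^ (δ / 4)⌉₊ := ⟨_, rfl⟩
  have hXd : 1 ≤ X ^ (δ / 4) := Real.one_le_rpow hX3 (by positivity)
  have hE1 : X ^ (δ / 4) ≤ E0 := by rw [hE0]; exact Nat.le_ceil _
  have hE2 : (E0 : ℝ) ≤ 2 * X ^ (δ / 4) := by
    have := (Nat.ceil_lt_add_one (show 0 ≤ X ^ (δ / 4) by positivity)).le
    rw [hE0]
    linarith
  have hE00 : 0 < E0 := by
    have : (0 : ℝ) < E0 := by linarith
    exact_mod_cast this
  have hgood : ∀ f ∈ F, 0 < f.1 ∧ 0 < f.2 ∧ (f.1 : ℝ) + f.2 ≤ X ∧ IsCoprime f.1 f.2 := fun f hf =>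
    ⟨(hF f hf).apos, (hF f hf).bpos, (hF f hf).cle, (hF f hf).cop⟩
  have b1 := bad_one (F := F) (D := D) (N := M1) (E0 := E0) (fun f => f.1) hN1 hE00 hX0 hD0 (by
      intro f hf
      refine ⟨(hF f hf).apos, ?_⟩
      have k4 := (hF f hf).cle
      have k5 : (0 : ℝ) < f.2 := by exact_mod_cast (hF f hf).bpos
      linarith) (by
      intro e he
      have k6 := card_inL (G := F.filter fun f => ((M1 * e ^ 2 : ℕ) : ℤ) ∣ f.1) (X := X)
        (N1 := M1 * e ^ 2) (N2 := M2) (N3 := M3) (by positivity) hN2 hN3 hX0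
        (fun f hf => hgood f (mem_filter.1 hf).1)
        (fun f hf => ⟨(mem_filter.1 hf).2, (hF f (mem_filter.1 hf).1).inl.h2,
          (hF f (mem_filter.1 hf).1).inl.h3⟩)
      have k7 : ((M1 * e ^ 2 * M2 * M3 : ℕ) : ℝ) = D * e ^ 2 := by rw [hD]; push_cast; ring
      rwa [k7] at k6)
  have b2 := bad_one (F := F) (D := D) (N := M2) (E0 := E0) (fun f => f.2) hN2 hE00 hX0 hD0 (by
      intro f hf
      refine ⟨(hF f hf).bpos, ?_⟩
      have k4 := (hF f hf).cle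
      have k5 : (0 : ℝ) < f.1 := by exact_mod_cast (hF f hf).apos
      linarith) (by
      intro e he
      have k6 := card_inL (G := F.filter fun f => ((M2 * e ^ 2 : ℕ) : ℤ) ∣ f.2) (X := X)
        (N1 := M1) (N2 := M2 * e ^ 2) (N3 := M3) hN1 (by positivity) hN3 hX0
        (fun f hf => hgood f (mem_filter.1 hf).1)
        (fun f hf => ⟨(hF f (mem_filter.1 hf).1).inl.h1, (mem_filter.1 hf).2,
          (hF f (mem_filter.1 hf).1).inl.h3⟩)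
      have k7 : ((M1 * (M2 * e ^ 2) * M3 : ℕ) : ℝ) = D * e ^ 2 := by rw [hD]; push_cast; ring
      rwa [k7] at k6)
  have b3 := bad_one (F := F) (D := D) (N := M3) (E0 := E0) (fun f => f.1 + f.2) hN3 hE00 hX0 hD0 (by
      intro f hf
      refine ⟨by have := (hF f hf).apos; have := (hF f hf).bpos; omega, ?_⟩
      have k4 := (hF f hf).cle
      push_cast
      exact k4) (by
      intro e he
      have k6 := card_inL (G := F.filter fun f => ((M3 * e ^ 2 : ℕ) : ℤ) ∣ f.1 + f.2) (X := X)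
        (N1 := M1) (N2 := M2) (N3 := M3 * e ^ 2) hN1 hN2 (by positivity) hX0
        (fun f hf => hgood f (mem_filter.1 hf).1)
        (fun f hf => ⟨(hF f (mem_filter.1 hf).1).inl.h1, (hF f (mem_filter.1 hf).1).inl.h2,
          (mem_filter.1 hf).2⟩)
      have k7 : ((M1 * M2 * (M3 * e ^ 2) : ℕ) : ℝ) = D * e ^ 2 := by rw [hD]; push_cast; ring
      rwa [k7] at k6)
  obtain ⟨B1, hB1⟩ : ∃ B1 : Finset (ℤ × ℤ), B1 = F.filter fun f => ∃ e : ℕ, E0 ≤ e ∧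
    ((M1 * e ^ 2 : ℕ) : ℤ) ∣ f.1 := ⟨_, rfl⟩
  obtain ⟨B2, hB2⟩ : ∃ B2 : Finset (ℤ × ℤ), B2 = F.filter fun f => ∃ e : ℕ, E0 ≤ e ∧
    ((M2 * e ^ 2 : ℕ) : ℤ) ∣ f.2 := ⟨_, rfl⟩
  obtain ⟨B3, hB3⟩ : ∃ B3 : Finset (ℤ × ℤ), B3 = F.filter fun f => ∃ e : ℕ, E0 ≤ e ∧
    ((M3 * e ^ 2 : ℕ) : ℤ) ∣ f.1 + f.2 := ⟨_, rfl⟩
  have b1' : (B1.card : ℝ) ≤ 2 * X ^ 2 / (D * E0) + Real.sqrt (X / M1) := by
    rw [hB1]; convert b1
  have b2' : (B2.card : ℝ) ≤ 2 * X ^ 2 / (D * E0) + Real.sqrt (X / M2) := by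
    rw [hB2]; convert b2
  have b3' : (B3.card : ℝ) ≤ 2 * X ^ 2 / (D * E0) + Real.sqrt (X / M3) := by
    rw [hB3]; convert b3
  obtain ⟨G, hG⟩ : ∃ G : Finset (ℤ × ℤ), G = F \ (B1 ∪ (B2 ∪ B3)) := ⟨_, rfl⟩
  have hGc : (F.card : ℝ) - (B1.card + (B2.card + B3.card)) ≤ (G.card : ℝ) := by
    have k4 : F.card ≤ G.card + (B1.card + (B2.card + B3.card)) := by
      rw [hG]
      have k5 := Finset.card_le_card_sdiff_add_card (s := F) (t := B1 ∪ (B2 ∪ B3))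
      have k6 := Finset.card_union_le B1 (B2 ∪ B3)
      have k7 := Finset.card_union_le B2 B3
      omega
    have : (F.card : ℝ) ≤ G.card + (B1.card + (B2.card + B3.card)) := by exact_mod_cast k4
    linarith
  -- the final count
  have hcount : X ^ (α + β + γ - 1 - δ) ≤ (G.card : ℝ) := by
    refine le_trans ?_ hGc
    have c1 : 1 / K * X ^ (α + β + γ - 1 - δ1) ≤ X ^ (2 - δ1) / D := by
      rw [le_div_iff₀ hD0]
      calc 1 / K * X ^ (α + β + γ - 1 - δ1) * D ≤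
            1 / K * X ^ (α + β + γ - 1 - δ1) * (K * X ^ (3 - (α + β + γ))) := by gcongr
        _ = X ^ (α + β + γ - 1 - δ1) * X ^ (3 - (α + β + γ)) := by field_simp
        _ = X ^ (2 - δ1) := by
            rw [← Real.rpow_add hX0]
            congr 1
            ring
    have c2 : 2 * X ^ 2 / (D * E0) ≤ 1 / 12 * (X ^ (2 - δ1) / D) := by
      have c3 : 2 * X ^ 2 / (D * E0) ≤ 2 * X ^ 2 / (D * X ^ (δ / 4)) := by gcongr
      have c4 : 2 * X ^ 2 / (D * X ^ (δ / 4)) = 2 * X ^ (2 - δ / 4) / D := by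
        rw [Real.rpow_sub hX0]
        rw [show (2 : ℝ) = ((2 : ℕ) : ℝ) by norm_num, Real.rpow_natCast]
        field_simp
      rw [c4] at c3
      refine c3.trans ?_
      rw [← mul_div_assoc]
      apply div_le_div_of_nonneg_right _ hD0.le
      linarith
    have e1 : 1 / (12 * K) * X ^ (α + β + γ - 1 - δ1) =
        1 / 12 * (1 / K * X ^ (α + β + γ - 1 - δ1)) := by field_simp
    have e2 : 1 / (2 * K) * X ^ (α + β + γ - 1 - δ1) =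
        1 / 2 * (1 / K * X ^ (α + β + γ - 1 - δ1)) := by field_simp
    rw [e1] at g1 g2 g3
    rw [e2] at g4
    linarith
  -- conclusion
  have hGF : ∀ f ∈ G, f ∈ F := fun f hf => by rw [hG] at hf; exact (Finset.mem_sdiff.1 hf).1
  refine ⟨G.image fun f => (f.1.toNat, f.2.toNat), ?_, ?_⟩
  · intro t ht
    rw [mem_image] at ht
    obtain ⟨⟨a, b⟩, hf, rfl⟩ := ht
    have hFm := hGF _ hf
    obtain ⟨l1, l2, l3, l4, l5, l6, l7, ⟨l8, l9, l10⟩, l11, l12⟩ := hF _ hFm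
    rw [hG, Finset.mem_sdiff, mem_union, mem_union, hB1, hB2, hB3, mem_filter, mem_filter,
      mem_filter] at hf
    obtain ⟨-, hf⟩ := hf
    push Not at hf
    obtain ⟨n1, n2, n3⟩ := hf
    have n1' := n1 hFm
    have n2' := n2 hFm
    have n3' := n3 hFm
    simp only at l1 l2 l3 l4 l5 l6 l7 l8 l9 l10 l11 l12 n1' n2' n3'
    lift a to ℕ using l1.le
    lift b to ℕ using l2.le
    simp only [Int.toNat_natCast]
    have o1 : 0 < a := by exact_mod_cast l1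
    have o2 : 0 < b := by exact_mod_cast l2
    have o3 : ((a + b : ℕ) : ℝ) ≤ X := by push_cast; exact_mod_cast l4
    have o3' : X / 2 < ((a + b : ℕ) : ℝ) := by push_cast; exact_mod_cast l3
    have ha0 : (0 : ℝ) < a := by exact_mod_cast o1
    have hb0 : (0 : ℝ) < b := by exact_mod_cast o2
    have o4 : (a : ℝ) ≤ X := by
      refine le_trans ?_ o3
      push_cast
      linarith
    have o5 : (b : ℝ) ≤ X := by
      refine le_trans ?_ o3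
      push_cast
      linarith
    have l5' : (2 * θ₁ + θ₂) / 3 * ((a + b : ℕ) : ℝ) < a := by push_cast; exact_mod_cast l5
    have l6' : (a : ℝ) < (θ₁ + 2 * θ₂) / 3 * ((a + b : ℕ) : ℝ) := by push_cast; exact_mod_cast l6
    have hcn : (0 : ℝ) < ((a + b : ℕ) : ℝ) := by linarith
    have q1 : κ * X ≤ a := by
      have q2 : 2 * κ * ((a + b : ℕ) : ℝ) ≤ (2 * θ₁ + θ₂) / 3 * ((a + b : ℕ) : ℝ) := by
        apply mul_le_mul_of_nonneg_right _ hcn.le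
        rw [hκ]; linarith
      have q3 : 2 * κ * (X / 2) ≤ 2 * κ * ((a + b : ℕ) : ℝ) := by gcongr
      linarith
    have q4 : κ * X ≤ b := by
      have q2 : 2 * κ * ((a + b : ℕ) : ℝ) ≤ (1 - (θ₁ + 2 * θ₂) / 3) * ((a + b : ℕ) : ℝ) := by
        apply mul_le_mul_of_nonneg_right _ hcn.le
        rw [hκ]; linarith
      have q3 : 2 * κ * (X / 2) ≤ 2 * κ * ((a + b : ℕ) : ℝ) := by gcongr
      have q5 : (b : ℝ) = ((a + b : ℕ) : ℝ) - a := by push_cast; ring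
      have q6 : (1 - (θ₁ + 2 * θ₂) / 3) * ((a + b : ℕ) : ℝ) =
          ((a + b : ℕ) : ℝ) - (θ₁ + 2 * θ₂) / 3 * ((a + b : ℕ) : ℝ) := by ring
      linarith
    have q5 : κ * X ≤ ((a + b : ℕ) : ℝ) := by
      have : κ * X ≤ 1 / 6 * X := by gcongr
      linarith
    refine ⟨o1, o2, Nat.isCoprime_iff_coprime.1 l7, o3', o3, ?_, ?_, ?_, ?_, ?_, ?_, ?_, ?_, ?_, ?_⟩
    · refine lt_of_le_of_lt ?_ l5'
      apply mul_le_mul_of_nonneg_right _ hcn.le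
      linarith
    · refine lt_of_lt_of_le l6' ?_
      apply mul_le_mul_of_nonneg_right _ hcn.le
      linarith
    · have := (Int.modEq_iff_dvd.2 l11).symm
      exact Int.natCast_modEq_iff.1 this
    · have := (Int.modEq_iff_dvd.2 l12).symm
      exact Int.natCast_modEq_iff.1 this
    · exact rpow_le_rd o1 (Int.natCast_dvd_natCast.1 l8)
        (fun e he hd => n1' e he (Int.natCast_dvd_natCast.2 hd)) hX3 (by positivity) hκ0 j1 hE2 q1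
        hδ hα1 g6
    · exact rd_le_rpow hp he1.ne' o1 (by rw [hM1]; exact Int.natCast_dvd_natCast.1 l8) o4 hα1
        (by rw [hM1]; exact i1)
    · exact rpow_le_rd o2 (Int.natCast_dvd_natCast.1 l9)
        (fun e he hd => n2' e he (Int.natCast_dvd_natCast.2 hd)) hX3 (by positivity) hκ0 j2 hE2 q4
        hδ hβ1 g7
    · exact rd_le_rpow hq he2.ne' o2 (by rw [hM2]; exact Int.natCast_dvd_natCast.1 l9) o5 hβ1
        (by rw [hM2]; exact i2)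
    · exact rpow_le_rd (by omega) (by exact_mod_cast l10)
        (fun e he hd => n3' e he (by exact_mod_cast hd)) hX3 (by positivity) hκ0 j3 hE2 q5 hδ hγ1 g8
    · exact rd_le_rpow hr he3.ne' (by omega) (by rw [hM3]; exact_mod_cast l10) o3 hγ1
        (by rw [hM3]; exact i3)
  · rw [card_image_of_injOn]
    · exact hcount
    · intro f hf g hg hfg
      have hf' := hF f (hGF f hf)
      have hg' := hF g (hGF g hg)
      simp only [Prod.mk.injEq] at hfg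
      have r1 := hf'.apos
      have r2 := hf'.bpos
      have r3 := hg'.apos
      have r4 := hg'.bpos
      ext <;> omega

end Pool.Agent.X4.MK
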